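import Mathlib

/-!
Minor spans of a linear map into matrices, and the splitting of minors of `x + t y`.
-/

namespace Pool.Agent.Lib.MP_64d474_lc.BB91

open Matrix

variable {F : Type*} [Field F] {V : Type*} [AddCommGroup V] [Module F V] {N : ℕ}

/-- The span of the functions `x ↦ s × s minor of A x`. -/
def minors (A : V →ₗ[F] Matrix (Fin N) (Fin N) F) (s : ℕ) : Submodule F (V → F) :=
  Submodule.span F (Set.range fun p : (Fin s → Fin N) × (Fin s → Fin N) =>
    fun x => ((A x).submatrix p.1 p.2).det)

theorem minor_mem (A : V →ₗ[F] Matrix (Fin N) (Fin N) F) (s : ℕ)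
    (R C : Fin s → Fin N) : (fun x => ((A x).submatrix R C).det) ∈ minors A s :=
  Submodule.subset_span ⟨(R, C), rfl⟩

/-- Constant rows in the positions `S`. -/
theorem const_rows (A : V →ₗ[F] Matrix (Fin N) (Fin N) F) (k : ℕ) :
    ∀ (s : ℕ) (S : Finset (Fin s)), S.card = k →
      ∀ (Y : Fin s → Fin s → F) (R C : Fin s → Fin N),
        (fun x => Matrix.det (S.piecewise Y (fun i j => A x (R i) (C j)))) ∈ minors A (s - k) := by
  induction k with
  | zero =>
    intro s S hS Y R C
    have h0 : S = ∅ := Finset.card_eq_zero.mp hS
    subst h0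
    simp only [Finset.piecewise_empty, Nat.sub_zero]
    exact minor_mem A s R C
  | succ k ih =>
    intro s S hS Y R C
    obtain ⟨i, hi⟩ : S.Nonempty := Finset.card_pos.mp (by omega)
    cases s with
    | zero => exact i.elim0
    | succ s =>
      have hcard : (Finset.univ.filter fun i' : Fin s => i.succAbove i' ∈ S).card = k := by
        have h1 : (Finset.univ.filter fun i' : Fin s => i.succAbove i' ∈ S).map
            (Fin.succAboveEmb i) = S.erase i := by
          ext j
          simp only [Finset.mem_map, Finset.mem_filter, Finset.mem_univ, true_and,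
            Finset.mem_erase, Fin.coe_succAboveEmb]
          constructor
          · rintro ⟨a, ha, rfl⟩
            exact ⟨Fin.succAbove_ne i a, ha⟩
          · rintro ⟨hne, hj⟩
            obtain ⟨a, rfl⟩ := Fin.exists_succAbove_eq hne
            exact ⟨a, hj, rfl⟩
        have h2 := congrArg Finset.card h1
        rw [Finset.card_map, Finset.card_erase_of_mem hi, hS] at h2
        simpa using h2
      have key : (fun x => Matrix.det (S.piecewise Y (fun i j => A x (R i) (C j)))) =
          ∑ j : Fin (s + 1), ((-1) ^ ((i : ℕ) + (j : ℕ)) * Y i j) •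
            (fun x => Matrix.det ((Finset.univ.filter fun i' : Fin s => i.succAbove i' ∈ S).piecewise
              (fun i' j' => Y (i.succAbove i') (j.succAbove j'))
              (fun i' j' => A x (R (i.succAbove i')) (C (j.succAbove j'))))) := by
        funext x
        refine (Matrix.det_succ_row (Matrix.of (S.piecewise Y (fun i j => A x (R i) (C j)))) i).trans ?_
        simp only [Finset.sum_apply, Pi.smul_apply, smul_eq_mul, Matrix.of_apply]
        refine Finset.sum_congr rfl fun j _ => ?_
        have hrow : (S.piecewise Y (fun i j => A x (R i) (C j)) : Fin (s + 1) → Fin (s + 1) → F) i j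
            = Y i j := by
          rw [Finset.piecewise_eq_of_mem _ _ _ hi]
        rw [hrow]
        congr 1
        congr 1
        ext i' j'
        simp only [Matrix.submatrix_apply, Matrix.of_apply]
        by_cases h : i.succAbove i' ∈ S
        · rw [Finset.piecewise_eq_of_mem _ _ _ h, Finset.piecewise_eq_of_mem]
          simpa using h
        · rw [Finset.piecewise_eq_of_notMem _ _ _ h, Finset.piecewise_eq_of_notMem]
          simpa using h
      rw [key]
      refine Submodule.sum_mem _ fun j _ => Submodule.smul_mem _ _ ?_
      have := ih s _ hcard (fun i' j' => Y (i.succAbove i') (j.succAbove j'))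
        (fun i' => R (i.succAbove i')) (fun j' => C (j.succAbove j'))
      simpa using this

/-- The pieces of a minor of `x + t y`. -/
theorem split_exists (A : V →ₗ[F] Matrix (Fin N) (Fin N) F) (a : ℕ) (g : V → F)
    (hg : g ∈ minors A a) :
    ∃ h : ℕ → V → V → F,
      (∀ x y (t : F), g (x + t • y) = ∑ b ∈ Finset.range (a + 1), t ^ b * h b x y) ∧
      (∀ b, b ≤ a → ∀ y, (fun x => h b x y) ∈ minors A (a - b)) ∧
      (∀ b, b ≤ a → ∀ x, (fun y => h b x y) ∈ minors A b) := by
  refine Submodule.span_induction (p := fun g _ => ∃ h : ℕ → V → V → F,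
      (∀ x y (t : F), g (x + t • y) = ∑ b ∈ Finset.range (a + 1), t ^ b * h b x y) ∧
      (∀ b, b ≤ a → ∀ y, (fun x => h b x y) ∈ minors A (a - b)) ∧
      (∀ b, b ≤ a → ∀ x, (fun y => h b x y) ∈ minors A b)) ?_ ?_ ?_ ?_ hg
  · rintro _ ⟨⟨R, C⟩, rfl⟩
    let X : V → Fin a → Fin a → F := fun x i j => A x (R i) (C j)
    refine ⟨fun b x y => ∑ S ∈ (Finset.univ : Finset (Finset (Fin a))).filter (fun S => S.card = b),
      Matrix.det (S.piecewise (X y) (X x)), ?_, ?_, ?_⟩
    · intro x y t
      have h1 : ((A (x + t • y)).submatrix R C).det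
          = Matrix.detRowAlternating (R := F) (fun i => t • X y i + X x i) := by
        change _ = Matrix.det _
        congr 1
        ext i j
        simp [X, add_comm]
      have h2 : Matrix.detRowAlternating (R := F) (fun i => t • X y i + X x i)
          = ∑ S : Finset (Fin a), t ^ S.card * Matrix.det (S.piecewise (X y) (X x)) := by
        have h3 := (Matrix.detRowAlternating (n := Fin a) (R := F)).toMultilinearMap.map_add_univ
          (fun i => t • X y i) (X x)
        have h4 : (fun i => t • X y i + X x i) = (fun i => t • X y i) + X x := rfl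
        rw [h4]
        refine h3.trans ?_
        refine Finset.sum_congr rfl fun S _ => ?_
        have h5 := (Matrix.detRowAlternating (n := Fin a) (R := F)).toMultilinearMap.map_piecewise_smul
          (fun _ => t) (S.piecewise (X y) (X x)) S
        have h6 : S.piecewise (fun i => t • S.piecewise (X y) (X x) i) (S.piecewise (X y) (X x))
            = S.piecewise (fun i => t • X y i) (X x) := by
          ext i j
          by_cases h : i ∈ S
          · simp [Finset.piecewise_eq_of_mem _ _ _ h]
          · simp [Finset.piecewise_eq_of_notMem _ _ _ h]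
        rw [h6] at h5
        refine h5.trans ?_
        simp only [Finset.prod_const, smul_eq_mul]
        rfl
      change ((A (x + t • y)).submatrix R C).det = _
      rw [h1, h2]
      have h7 := Finset.sum_fiberwise_of_maps_to (s := (Finset.univ : Finset (Finset (Fin a))))
        (t := Finset.range (a + 1)) (g := fun S => S.card)
        (fun S _ => by
          have := Finset.card_le_univ S
          simp only [Fintype.card_fin] at this
          simp only [Finset.mem_range]
          omega)
        (fun S => t ^ S.card * Matrix.det (S.piecewise (X y) (X x)))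
      rw [← h7]
      refine Finset.sum_congr rfl fun b _ => ?_
      rw [Finset.mul_sum]
      refine Finset.sum_congr rfl fun S hS => ?_
      rw [(Finset.mem_filter.mp hS).2]
    · intro b hb y
      have : (fun x => ∑ S ∈ (Finset.univ : Finset (Finset (Fin a))).filter (fun S => S.card = b),
          Matrix.det (S.piecewise (X y) (X x)))
          = ∑ S ∈ (Finset.univ : Finset (Finset (Fin a))).filter (fun S => S.card = b),
            fun x => Matrix.det (S.piecewise (X y) (X x)) := by
        funext x
        simp
      rw [this]
      refine Submodule.sum_mem _ fun S hS => ?_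
      exact const_rows A b a S (Finset.mem_filter.mp hS).2 (X y) R C
    · intro b hb x
      have : (fun y => ∑ S ∈ (Finset.univ : Finset (Finset (Fin a))).filter (fun S => S.card = b),
          Matrix.det (S.piecewise (X y) (X x)))
          = ∑ S ∈ (Finset.univ : Finset (Finset (Fin a))).filter (fun S => S.card = b),
            fun y => Matrix.det (S.piecewise (X y) (X x)) := by
        funext y
        simp
      rw [this]
      refine Submodule.sum_mem _ fun S hS => ?_
      have hc : (Sᶜ).card = a - b := by
        rw [Finset.card_compl, Fintype.card_fin, (Finset.mem_filter.mp hS).2]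
      have h1 := const_rows A (a - b) a Sᶜ hc (X x) R C
      have h2 : a - (a - b) = b := by omega
      rw [h2] at h1
      have h3 : (fun y => Matrix.det (S.piecewise (X y) (X x)))
          = fun y => Matrix.det ((Sᶜ).piecewise (X x) (fun i j => A y (R i) (C j))) := by
        funext y
        rw [Finset.piecewise_compl]
      rw [h3]
      exact h1
  · refine ⟨fun _ _ _ => 0, ?_, ?_, ?_⟩
    · intro x y t
      simp
    · intro b _ y
      exact Submodule.zero_mem _
    · intro b _ y
      exact Submodule.zero_mem _
  · rintro g g' _ _ ⟨h, h1, h2, h3⟩ ⟨h', h1', h2', h3'⟩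
    refine ⟨fun b x y => h b x y + h' b x y, ?_, ?_, ?_⟩
    · intro x y t
      simp only [Pi.add_apply, h1, h1', mul_add, Finset.sum_add_distrib]
    · intro b hb y
      exact Submodule.add_mem _ (h2 b hb y) (h2' b hb y)
    · intro b hb x
      exact Submodule.add_mem _ (h3 b hb x) (h3' b hb x)
  · rintro c g _ ⟨h, h1, h2, h3⟩
    refine ⟨fun b x y => c * h b x y, ?_, ?_, ?_⟩
    · intro x y t
      simp only [Pi.smul_apply, smul_eq_mul, h1, Finset.mul_sum]
      refine Finset.sum_congr rfl fun b _ => by ring
    · intro b hb y
      exact Submodule.smul_mem _ c (h2 b hb y)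
    · intro b hb x
      exact Submodule.smul_mem _ c (h3 b hb x)

theorem minors_homog (A : V →ₗ[F] Matrix (Fin N) (Fin N) F) (a : ℕ) (g : V → F)
    (hg : g ∈ minors A a) (c : F) (x : V) : g (c • x) = c ^ a * g x := by
  refine Submodule.span_induction (p := fun g _ => g (c • x) = c ^ a * g x) ?_ ?_ ?_ ?_ hg
  · rintro _ ⟨⟨R, C⟩, rfl⟩
    simp only [map_smul]
    rw [Matrix.submatrix_smul]
    simp
  · simp
  · intro g g' _ _ h h'
    simp only [Pi.add_apply, h, h', mul_add]
  · intro d g _ h
    simp only [Pi.smul_apply, smul_eq_mul, h]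
    ring

/-- `P` hits every nonzero function of `W`. -/
def Hits (P : Set V) (W : Submodule F (V → F)) : Prop :=
  ∀ g ∈ W, (∀ p ∈ P, g p = 0) → g = 0

/-- If the middle piece vanishes on `P × Q`, then `g = 0`. -/
theorem split_zero [CharZero F] (A : V →ₗ[F] Matrix (Fin N) (Fin N) F) (a b : ℕ) (P Q : Set V)
    (hP : Hits P (minors A a)) (hQ : Hits Q (minors A b)) (g : V → F)
    (hg : g ∈ minors A (a + b)) (h : ℕ → V → V → F)
    (h1 : ∀ x y (t : F), g (x + t • y) = ∑ i ∈ Finset.range (a + b + 1), t ^ i * h i x y)
    (h2 : ∀ i, i ≤ a + b → ∀ y, (fun x => h i x y) ∈ minors A (a + b - i))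
    (h3 : ∀ i, i ≤ a + b → ∀ x, (fun y => h i x y) ∈ minors A i)
    (hv : ∀ x ∈ P, ∀ y ∈ Q, h b x y = 0) : g = 0 := by
  -- h b vanishes for x ∈ P and all y
  have hv2 : ∀ x ∈ P, ∀ y, h b x y = 0 := by
    intro x hx y
    have := hQ (fun y => h b x y) (h3 b (by omega) x) (fun y hy => hv x hx y hy)
    exact congrFun this y
  have hv3 : ∀ x y, h b x y = 0 := by
    intro x y
    have h4 := h2 b (by omega) y
    have h5 : a + b - b = a := by omega
    rw [h5] at h4
    have := hP (fun x => h b x y) h4 (fun x hx => hv2 x hx y)
    exact congrFun this x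
  funext x
  -- compare coefficients of (1+t)^(a+b) g x
  have hpoly : (1 + Polynomial.X : Polynomial F) ^ (a + b) * Polynomial.C (g x)
      = ∑ i ∈ Finset.range (a + b + 1), Polynomial.C (h i x x) * Polynomial.X ^ i := by
    apply Polynomial.funext
    intro t
    have h6 : g (x + t • x) = (1 + t) ^ (a + b) * g x := by
      have : x + t • x = (1 + t) • x := by rw [add_smul, one_smul]
      rw [this]
      exact minors_homog A (a + b) g hg (1 + t) x
    rw [h1] at h6
    simp only [Polynomial.eval_mul, Polynomial.eval_pow, Polynomial.eval_add, Polynomial.eval_one,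
      Polynomial.eval_X, Polynomial.eval_C, Polynomial.eval_finsetSum]
    rw [← h6]
    refine Finset.sum_congr rfl fun i _ => by ring
  have hco := congrArg (fun p => Polynomial.coeff p b) hpoly
  simp only [Polynomial.coeff_mul_C, Polynomial.finsetSum_coeff,
    Polynomial.coeff_C_mul_X_pow] at hco
  rw [Finset.sum_eq_single b] at hco
  · simp only [if_true] at hco
    rw [hv3, add_comm (1 : Polynomial F) Polynomial.X, Polynomial.coeff_X_add_one_pow] at hco
    have hne : ((Nat.choose (a + b) b : ℕ) : F) ≠ 0 := by
      exact_mod_cast (Nat.choose_pos (by omega)).ne'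
    rcases mul_eq_zero.mp hco with h7 | h7
    · exact absurd h7 hne
    · simpa using h7
  · intro i _ hi
    simp [Ne.symm hi]
  · intro hb
    exact absurd (Finset.mem_range.mpr (by omega)) hb

theorem split_hits [CharZero F] (A : V →ₗ[F] Matrix (Fin N) (Fin N) F) (a b : ℕ) (P Q : Set V)
    (hP : Hits P (minors A a)) (hQ : Hits Q (minors A b)) :
    Hits {z | ∃ x ∈ P, ∃ y ∈ Q, ∃ t : ℕ, t ≤ a + b ∧ z = x + (t : F) • y}
      (minors A (a + b)) := by
  intro g hg hz
  obtain ⟨h, h1, h2, h3⟩ := split_exists A (a + b) g hg
  -- all values on P × Q vanish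
  have hv : ∀ x ∈ P, ∀ y ∈ Q, h b x y = 0 := by
    intro x hx y hy
    let p : Polynomial F := ∑ i ∈ Finset.range (a + b + 1), Polynomial.C (h i x y) * Polynomial.X ^ i
    have hp : p = 0 := by
      apply Polynomial.eq_zero_of_natDegree_lt_card_of_eval_eq_zero' p
        ((Finset.range (a + b + 1)).map ⟨fun n : ℕ => (n : F), Nat.cast_injective⟩)
      · intro t ht
        obtain ⟨n, hn, rfl⟩ := Finset.mem_map.mp ht
        have hn' : n ≤ a + b := by
          have := Finset.mem_range.mp hn
          omega
        have h4 := hz (x + (n : F) • y) ⟨x, hx, y, hy, n, hn', rfl⟩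
        rw [h1 x y n] at h4
        simp only [p, Polynomial.eval_finsetSum, Polynomial.eval_mul, Polynomial.eval_C,
          Polynomial.eval_pow, Polynomial.eval_X, Function.Embedding.coeFn_mk]
        rw [← h4]
        refine Finset.sum_congr rfl fun i _ => by ring
      · rw [Finset.card_map, Finset.card_range]
        refine lt_of_le_of_lt (Polynomial.natDegree_sum_le_of_forall_le _ _ (n := a + b) ?_)
          (by omega)
        intro i hi
        refine (Polynomial.natDegree_C_mul_X_pow_le _ _).trans ?_
        have := Finset.mem_range.mp hi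
        omega
    have hc : p.coeff b = h b x y := by
      simp only [p, Polynomial.finsetSum_coeff, Polynomial.coeff_C_mul_X_pow]
      rw [Finset.sum_eq_single b]
      · simp
      · intro i _ hi
        simp [Ne.symm hi]
      · intro hb
        exact absurd (Finset.mem_range.mpr (by omega)) hb
    rw [← hc, hp, Polynomial.coeff_zero]
  exact split_zero A a b P Q hP hQ g hg h h1 h2 h3 hv

end Pool.Agent.Lib.MP_64d474_lc.BB91
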