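import Mathlib

/-!
Condenser lemma: a space of polynomials of degree `≤ M` spanned by `d` polynomials is
determined by the values at `a, 2a, 4a, …, 2^(d-1) a`, for all but `d M` values of `a`.
-/

namespace Pool.Agent.Lib.MP_64d474_lc.BB91

open Polynomial Matrix

variable {F : Type*} [Field F]

/-- Degrees of the nonzero elements. -/
def degs (U : Submodule F F[X]) : Set ℕ := {e | ∃ u ∈ U, u ≠ 0 ∧ u.natDegree = e}

theorem mem_span_of_degs (U : Submodule F F[X]) (ι : Type) (w : ι → F[X])
    (hw : ∀ i, w i ∈ U) (hne : ∀ i, w i ≠ 0)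
    (hsurj : ∀ e ∈ degs U, ∃ i, (w i).natDegree = e) :
    ∀ (n : ℕ) (u : F[X]), u ∈ U → u.natDegree < n → u ∈ Submodule.span F (Set.range w) := by
  intro n
  induction n with
  | zero => intro u _ h; exact absurd h (Nat.not_lt_zero _)
  | succ n ih =>
    intro u hu hn
    by_cases h0 : u = 0
    · rw [h0]; exact Submodule.zero_mem _
    · obtain ⟨i, hi⟩ := hsurj u.natDegree ⟨u, hu, h0, rfl⟩
      have hlc : (w i).leadingCoeff ≠ 0 := leadingCoeff_ne_zero.mpr (hne i)
      set c : F := u.leadingCoeff / (w i).leadingCoeff with hc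
      have hv : u - c • w i ∈ U := Submodule.sub_mem _ hu (Submodule.smul_mem _ _ (hw i))
      have hcoe : (u - c • w i).coeff u.natDegree = 0 := by
        simp only [coeff_sub, coeff_smul, smul_eq_mul]
        have h1 : (w i).coeff u.natDegree = (w i).leadingCoeff := by rw [← hi]; rfl
        rw [h1, hc]
        field_simp
        simp
      have hle : (u - c • w i).natDegree ≤ u.natDegree := by
        refine (natDegree_sub_le _ _).trans (max_le le_rfl ?_)
        exact (natDegree_smul_le _ _).trans hi.le
      have hmem : u - c • w i ∈ Submodule.span F (Set.range w) := by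
        by_cases hd0 : u.natDegree = 0
        · have h2 : u - c • w i = 0 := by
            have h3 : (u - c • w i).natDegree = 0 := by omega
            rw [eq_C_of_natDegree_eq_zero h3, ← hd0, hcoe, C_0]
          rw [h2]; exact Submodule.zero_mem _
        · apply ih _ hv
          have h4 : (u - c • w i).natDegree < u.natDegree := by
            refine lt_of_le_of_ne hle fun h5 => ?_
            have h6 : (u - c • w i).leadingCoeff = 0 := by
              rw [leadingCoeff, h5]; exact hcoe
            rw [leadingCoeff_eq_zero] at h6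
            rw [h6, natDegree_zero] at h5
            exact hd0 h5.symm
          omega
      have h7 : u = (u - c • w i) + c • w i := by ring
      rw [h7]
      exact Submodule.add_mem _ hmem (Submodule.smul_mem _ _ (Submodule.subset_span ⟨i, rfl⟩))

theorem coeff_prod_le {ι : Type*} (s : Finset ι) (f : ι → F[X]) (n : ι → ℕ)
    (h : ∀ i ∈ s, (f i).natDegree ≤ n i) :
    (∏ i ∈ s, f i).coeff (∑ i ∈ s, n i) = ∏ i ∈ s, (f i).coeff (n i) := by
  classical
  induction s using Finset.induction_on with
  | empty => simp
  | insert a s ha ih =>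
    rw [Finset.prod_insert ha, Finset.sum_insert ha, Finset.prod_insert ha,
      coeff_mul_add_eq_of_natDegree_le (h a (Finset.mem_insert_self a s)),
      ih fun i hi => h i (Finset.mem_insert_of_mem hi)]
    refine (natDegree_prod_le _ _).trans (Finset.sum_le_sum fun i hi => ?_)
    exact h i (Finset.mem_insert_of_mem hi)

/-- The determinant in the condenser lemma. -/
theorem det_ne_zero_of_degs [CharZero F] (k : ℕ) (w : Fin k → F[X]) (hne : ∀ i, w i ≠ 0)
    (hinj : Function.Injective fun i => (w i).natDegree) :
    (Matrix.det (Matrix.of fun i j : Fin k => (w j).comp (C ((2 : F) ^ (i : ℕ)) * X))).coeff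
      (∑ j, (w j).natDegree) ≠ 0 := by
  rw [Matrix.det_apply']
  have hcoef : ∀ σ : Equiv.Perm (Fin k),
      (((Equiv.Perm.sign σ : ℤ) : F[X]) * ∏ i, (Matrix.of fun i j : Fin k =>
        (w j).comp (C ((2 : F) ^ (i : ℕ)) * X)) (σ i) i).coeff (∑ j, (w j).natDegree)
      = ((Equiv.Perm.sign σ : ℤ) : F) * ∏ i, (Matrix.of fun i j : Fin k =>
        (w j).leadingCoeff * ((2 : F) ^ (w j).natDegree) ^ (i : ℕ)) (σ i) i := by
    intro σ
    have h1 : (((Equiv.Perm.sign σ : ℤ) : F[X])) = C (((Equiv.Perm.sign σ : ℤ) : F)) := by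
      simp
    rw [h1, coeff_C_mul]
    congr 1
    rw [coeff_prod_le Finset.univ _ (fun j => (w j).natDegree)]
    · refine Finset.prod_congr rfl fun j _ => ?_
      simp only [Matrix.of_apply]
      rw [comp_C_mul_X_coeff]
      rw [← pow_mul, ← pow_mul, mul_comm ((σ j : Fin k) : ℕ)]
      rfl
    · intro j _
      simp only [Matrix.of_apply]
      refine natDegree_comp_le.trans ?_
      have : (C ((2 : F) ^ ((σ j : Fin k) : ℕ)) * X).natDegree ≤ 1 := by
        refine (natDegree_C_mul_le _ _).trans ?_
        exact natDegree_X_le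
      calc (w j).natDegree * (C ((2 : F) ^ ((σ j : Fin k) : ℕ)) * X).natDegree
          ≤ (w j).natDegree * 1 := Nat.mul_le_mul_left _ this
        _ = (w j).natDegree := Nat.mul_one _
  rw [finsetSum_coeff, Finset.sum_congr rfl fun σ _ => hcoef σ, ← Matrix.det_apply']
  have h2 : (Matrix.of fun i j : Fin k => (w j).leadingCoeff * ((2 : F) ^ (w j).natDegree) ^ (i : ℕ))
      = (Matrix.vandermonde fun j => (2 : F) ^ (w j).natDegree)ᵀ *
        Matrix.diagonal (fun j => (w j).leadingCoeff) := by
    ext i j
    rw [Matrix.mul_diagonal]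
    simp [Matrix.vandermonde_apply, mul_comm]
  rw [h2, Matrix.det_mul, Matrix.det_transpose, Matrix.det_diagonal]
  refine mul_ne_zero ?_ (Finset.prod_ne_zero_iff.mpr fun j _ => leadingCoeff_ne_zero.mpr (hne j))
  rw [Matrix.det_vandermonde_ne_zero_iff]
  intro i j hij
  apply hinj
  have h3 : ((2 ^ (w i).natDegree : ℕ) : F) = ((2 ^ (w j).natDegree : ℕ) : F) := by
    push_cast; exact hij
  exact Nat.pow_right_injective le_rfl (Nat.cast_injective h3)

/-- Condenser lemma. -/
theorem condenser [CharZero F] (d M : ℕ) (u : Fin d → F[X]) (hu : ∀ i, (u i).natDegree ≤ M) :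
    ∃ a : ℕ, a ≤ d * M ∧ ∀ p ∈ Submodule.span F (Set.range u),
      (∀ i, i < d → p.eval ((2 : F) ^ i * (a : F)) = 0) → p = 0 := by
  classical
  set U : Submodule F F[X] := Submodule.span F (Set.range u) with hU
  have hUdeg : ∀ p ∈ U, p.natDegree ≤ M := by
    intro p hp
    have h1 : U ≤ degreeLE F M := by
      rw [hU, Submodule.span_le]
      rintro _ ⟨i, rfl⟩
      rw [SetLike.mem_coe, mem_degreeLE]
      exact natDegree_le_iff_degree_le.mp (hu i)
    have h2 := h1 hp
    rw [mem_degreeLE] at h2
    exact natDegree_le_iff_degree_le.mpr h2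
  have hfd : FiniteDimensional F U := by
    rw [hU]
    exact FiniteDimensional.span_of_finite F (Set.finite_range u)
  have hdim : Module.finrank F U ≤ d := by
    rw [hU]
    have := finrank_range_le_card (R := F) u
    simpa [Set.finrank] using this
  have hEfin : (degs U).Finite := by
    refine (Set.finite_Iic M).subset ?_
    rintro e ⟨p, hp, _, rfl⟩
    exact hUdeg p hp
  set E : Finset ℕ := hEfin.toFinset with hE
  have hEmem : ∀ e, e ∈ E ↔ e ∈ degs U := fun e => hEfin.mem_toFinset
  let k := E.card
  let en : Fin k ≃o E := E.orderIsoOfFin rfl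
  have hch : ∀ j : Fin k, ∃ p ∈ U, p ≠ 0 ∧ p.natDegree = (en j : ℕ) := fun j =>
    (hEmem _).mp (en j).2
  choose w hwU hwne hwdeg using hch
  have hinj : Function.Injective fun i => (w i).natDegree := by
    intro i j hij
    simp only [hwdeg] at hij
    exact en.injective (Subtype.ext hij)
  have hspan : ∀ p ∈ U, p ∈ Submodule.span F (Set.range w) := by
    intro p hp
    apply mem_span_of_degs U (Fin k) w hwU hwne ?_ (p.natDegree + 1) p hp (Nat.lt_succ_self _)
    intro e he
    refine ⟨en.symm ⟨e, (hEmem e).mpr he⟩, ?_⟩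
    rw [hwdeg]
    simp
  -- linear independence gives k ≤ d
  have hlin : LinearIndependent F w := by
    rw [Fintype.linearIndependent_iff]
    intro c hc
    by_contra hcon
    push Not at hcon
    obtain ⟨i0, hi0⟩ := hcon
    -- take the index with the largest degree
    have hne : (Finset.univ.filter fun i => c i ≠ 0).Nonempty := ⟨i0, by simp [hi0]⟩
    obtain ⟨i, hi, hmax⟩ := Finset.exists_max_image _ (fun i => (w i).natDegree) hne
    have hci : c i ≠ 0 := (Finset.mem_filter.mp hi).2
    have h1 := congrArg (fun p => coeff p (w i).natDegree) hc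
    simp only [finsetSum_coeff, coeff_smul, smul_eq_mul, coeff_zero] at h1
    rw [Finset.sum_eq_single i] at h1
    · have h2 : (w i).coeff (w i).natDegree ≠ 0 := leadingCoeff_ne_zero.mpr (hwne i)
      exact (mul_ne_zero hci h2) h1
    · intro j _ hji
      by_cases hcj : c j = 0
      · rw [hcj, zero_mul]
      · have h3 : (w j).natDegree ≤ (w i).natDegree := hmax j (by simp [hcj])
        have h4 : (w j).natDegree ≠ (w i).natDegree := fun h => hji (hinj h)
        rw [coeff_eq_zero_of_natDegree_lt (by omega), mul_zero]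
    · intro h; exact absurd (Finset.mem_univ _) h
  have hkd : k ≤ d := by
    have h1 : LinearIndependent F (fun i => (⟨w i, hwU i⟩ : U)) :=
      LinearIndependent.of_comp U.subtype hlin
    have h2 := h1.fintype_card_le_finrank
    rw [Fintype.card_fin] at h2
    omega
  -- the determinant
  set D : F[X] := Matrix.det (Matrix.of fun i j : Fin k =>
    (w j).comp (C ((2 : F) ^ (i : ℕ)) * X)) with hD
  have hDne : D ≠ 0 := by
    intro h0
    have := det_ne_zero_of_degs k w hwne hinj
    rw [← hD, h0, coeff_zero] at this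
    exact this rfl
  have hDdeg : D.natDegree ≤ d * M := by
    rw [hD, Matrix.det_apply']
    refine (natDegree_sum_le_of_forall_le _ _ (n := k * M) ?_).trans (Nat.mul_le_mul_right _ hkd)
    intro σ _
    have h1 : (((Equiv.Perm.sign σ : ℤ) : F[X])) = C (((Equiv.Perm.sign σ : ℤ) : F)) := by
      simp
    rw [h1]
    refine (natDegree_C_mul_le _ _).trans ?_
    refine (natDegree_prod_le _ _).trans ?_
    calc ∑ i, ((Matrix.of fun i j : Fin k => (w j).comp (C ((2 : F) ^ (i : ℕ)) * X)) (σ i) i).natDegree
        ≤ ∑ _i : Fin k, M := by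
          refine Finset.sum_le_sum fun j _ => ?_
          simp only [Matrix.of_apply]
          refine natDegree_comp_le.trans ?_
          have : (C ((2 : F) ^ ((σ j : Fin k) : ℕ)) * X).natDegree ≤ 1 := by
            refine (natDegree_C_mul_le _ _).trans ?_
            exact natDegree_X_le
          calc (w j).natDegree * (C ((2 : F) ^ ((σ j : Fin k) : ℕ)) * X).natDegree
              ≤ (w j).natDegree * 1 := Nat.mul_le_mul_left _ this
            _ = (w j).natDegree := Nat.mul_one _
            _ ≤ M := hUdeg _ (hwU j)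
      _ = k * M := by simp
  -- a good value of a
  have hgood : ∃ a : ℕ, a ≤ d * M ∧ D.eval (a : F) ≠ 0 := by
    by_contra hcon
    push Not at hcon
    apply hDne
    apply eq_zero_of_natDegree_lt_card_of_eval_eq_zero' D
      ((Finset.range (d * M + 1)).map ⟨fun n : ℕ => (n : F), Nat.cast_injective⟩)
    · intro t ht
      obtain ⟨n, hn, rfl⟩ := Finset.mem_map.mp ht
      exact hcon n (by have := Finset.mem_range.mp hn; omega)
    · rw [Finset.card_map, Finset.card_range]
      omega
  obtain ⟨a, ha, hDa⟩ := hgood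
  refine ⟨a, ha, ?_⟩
  intro p hp hz
  obtain ⟨c, hc⟩ := (Submodule.mem_span_range_iff_exists_fun F).mp (hspan p hp)
  -- matrix of values
  have hmat : (Matrix.of fun i j : Fin k => (w j).eval ((2 : F) ^ (i : ℕ) * (a : F))).det ≠ 0 := by
    have h1 : (Matrix.of fun i j : Fin k => (w j).eval ((2 : F) ^ (i : ℕ) * (a : F))).det
        = D.eval (a : F) := by
      rw [hD, ← coe_evalRingHom, RingHom.map_det]
      congr 1
      ext i j
      simp [eval_comp]
    rw [h1]; exact hDa
  have hvec : (Matrix.of fun i j : Fin k => (w j).eval ((2 : F) ^ (i : ℕ) * (a : F))).mulVec c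
      = 0 := by
    ext i
    have h1 := hz i (lt_of_lt_of_le i.2 hkd)
    rw [← hc] at h1
    simp only [eval_finsetSum, eval_smul, smul_eq_mul] at h1
    simp only [Matrix.mulVec, dotProduct, Matrix.of_apply, Pi.zero_apply]
    rw [← h1]
    refine Finset.sum_congr rfl fun j _ => by ring
  have hc0 : c = 0 := Matrix.eq_zero_of_mulVec_eq_zero hmat hvec
  rw [← hc, hc0]
  simp

end Pool.Agent.Lib.MP_64d474_lc.BB91
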