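import Mathlib
import Pool.Agent.Lib.MP_64d474_lc.BB91.Cond

/-!
The substitution `(u, v) ↦ (t ^ w, t ^ w + t ^ (w - 1))` keeps polynomials of rank `≤ w`
(Gurjar, Korwar, Saxena).
-/

namespace Pool.Agent.Lib.MP_64d474_lc.BB91

open Polynomial

variable {F : Type*} [Field F]

/-- Nonzero polynomials of distinct degrees are independent. -/
theorem linInd_of_natDegree {ι : Type*} [Fintype ι] (w : ι → F[X]) (hne : ∀ i, w i ≠ 0)
    (hinj : Function.Injective fun i => (w i).natDegree) : LinearIndependent F w := by
  classical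
  rw [Fintype.linearIndependent_iff]
  intro c hc
  by_contra hcon
  push Not at hcon
  obtain ⟨i0, hi0⟩ := hcon
  have hne' : (Finset.univ.filter fun i => c i ≠ 0).Nonempty := ⟨i0, by simp [hi0]⟩
  obtain ⟨i, hi, hmax⟩ := Finset.exists_max_image _ (fun i => (w i).natDegree) hne'
  have hci : c i ≠ 0 := (Finset.mem_filter.mp hi).2
  have h1 := congrArg (fun p => coeff p (w i).natDegree) hc
  simp only [finsetSum_coeff, coeff_smul, smul_eq_mul, coeff_zero] at h1
  rw [Finset.sum_eq_single i] at h1
  · have h2 : (w i).coeff (w i).natDegree ≠ 0 := leadingCoeff_ne_zero.mpr (hne i)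
    exact (mul_ne_zero hci h2) h1
  · intro j _ hji
    by_cases hcj : c j = 0
    · rw [hcj, zero_mul]
    · have h3 : (w j).natDegree ≤ (w i).natDegree := hmax j (by simp [hcj])
      have h4 : (w j).natDegree ≠ (w i).natDegree := fun h => hji (hinj h)
      rw [coeff_eq_zero_of_natDegree_lt (by omega), mul_zero]
  · intro h; exact absurd (Finset.mem_univ _) h

theorem mul_choose_eq (j l : ℕ) :
    j * j.choose l = (l + 1) * j.choose (l + 1) + l * j.choose l := by
  have h1 := Nat.add_one_mul_choose_eq j l
  have h2 : (j + 1).choose (l + 1) = j.choose l + j.choose (l + 1) := Nat.choose_succ_succ j l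
  rw [h2] at h1
  nlinarith

/-- A sparse combination killed by the first binomials is zero. -/
theorem sparse_zero [CharZero F] : ∀ (n : ℕ) (J : Finset ℕ), J.card = n → ∀ (c : ℕ → F),
    (∀ l, l < n → ∑ j ∈ J, c j * ((j.choose l : ℕ) : F) = 0) → ∀ j ∈ J, c j = 0 := by
  intro n
  induction n with
  | zero =>
    intro J hJ c _ j hj
    rw [Finset.card_eq_zero] at hJ
    rw [hJ] at hj
    exact absurd hj (Finset.notMem_empty j)
  | succ n ih =>
    intro J hJ c hc
    obtain ⟨j0, hj0⟩ : J.Nonempty := Finset.card_pos.mp (by omega)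
    have hcard : (J.erase j0).card = n := by
      rw [Finset.card_erase_of_mem hj0, hJ]; rfl
    have h1 := ih (J.erase j0) hcard (fun j => ((j : F) - j0) * c j) (by
      intro l hl
      have e1 : ∑ j ∈ J.erase j0, ((j : F) - j0) * c j * ((j.choose l : ℕ) : F)
          = ∑ j ∈ J, ((j : F) - j0) * c j * ((j.choose l : ℕ) : F) := by
        rw [← Finset.add_sum_erase J _ hj0]
        simp
      rw [e1]
      have e2 : ∀ j ∈ J, ((j : F) - j0) * c j * ((j.choose l : ℕ) : F)
          = ((l : F) + 1) * (c j * ((j.choose (l + 1) : ℕ) : F)) +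
            ((l : F) - j0) * (c j * ((j.choose l : ℕ) : F)) := by
        intro j _
        have h2 : ((j * j.choose l : ℕ) : F)
            = (((l + 1) * j.choose (l + 1) + l * j.choose l : ℕ) : F) := by
          rw [mul_choose_eq]
        push_cast at h2
        linear_combination (c j) * h2
      rw [Finset.sum_congr rfl e2, Finset.sum_add_distrib, ← Finset.mul_sum, ← Finset.mul_sum,
        hc (l + 1) (by omega), hc l (by omega)]
      ring)
    have h2 : ∀ j ∈ J, j ≠ j0 → c j = 0 := by
      intro j hj hne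
      have h3 := h1 j (Finset.mem_erase.mpr ⟨hne, hj⟩)
      rcases mul_eq_zero.mp h3 with h4 | h4
      · exact absurd (Nat.cast_injective (sub_eq_zero.mp h4)) hne
      · exact h4
    intro j hj
    by_cases hjj : j = j0
    · have h5 := hc 0 (by omega)
      rw [Finset.sum_eq_single j0] at h5
      · rw [hjj]
        simpa using h5
      · intro i hi hne
        rw [h2 i hi hne, zero_mul]
      · intro h; exact absurd hj0 h
    · exact h2 j hj hjj

theorem mono_coeff (w i j d l : ℕ) (hw : 1 ≤ w) (hl : l < w) (hij : i + j ≤ d) (hld : l ≤ w * d) :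
    (X ^ (w * i) * (X ^ w + X ^ (w - 1)) ^ j : F[X]).coeff (w * d - l)
      = if i + j = d then ((j.choose l : ℕ) : F) else 0 := by
  obtain ⟨v, rfl⟩ : ∃ v, w = v + 1 := ⟨w - 1, by omega⟩
  have h1 : (X ^ ((v + 1) * i) * (X ^ (v + 1) + X ^ (v + 1 - 1)) ^ j : F[X])
      = X ^ ((v + 1) * i + v * j) * (X + 1) ^ j := by
    have h2 : (X ^ (v + 1) + X ^ (v + 1 - 1) : F[X]) = X ^ v * (X + 1) := by
      rw [Nat.add_sub_cancel]; ring
    rw [h2, mul_pow, ← pow_mul, ← mul_assoc, ← pow_add]
  rw [h1, coeff_X_pow_mul', coeff_X_add_one_pow]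
  by_cases hd : i + j = d
  · subst hd
    rw [if_pos rfl]
    have h3 : (v + 1) * (i + j) = ((v + 1) * i + v * j) + j := by ring
    rw [h3]
    by_cases hlj : l ≤ j
    · rw [if_pos (by omega)]
      have h4 : (v + 1) * i + v * j + j - l - ((v + 1) * i + v * j) = j - l := by omega
      rw [h4, Nat.choose_symm hlj]
    · rw [if_neg (by omega), Nat.choose_eq_zero_of_lt (by omega)]
      simp
  · rw [if_neg hd]
    obtain ⟨f, hf⟩ : ∃ f, d = i + j + 1 + f := ⟨d - (i + j + 1), by omega⟩
    subst hf
    have h3 : (v + 1) * (i + j + 1 + f)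
        = ((v + 1) * i + v * j) + j + (v + 1) + (v + 1) * f := by ring
    rw [h3]
    rw [if_pos (by omega), Nat.choose_eq_zero_of_lt (by omega)]
    simp

/-- The substitution. -/
noncomputable def subst (w : ℕ) : F[X][X] →+* F[X] :=
  eval₂RingHom (compRingHom (X ^ w)) (X ^ w + X ^ (w - 1))

theorem subst_C (w : ℕ) (p : F[X]) : subst w (C p) = p.comp (X ^ w) := by
  simp [subst]

theorem subst_map (w : ℕ) (q : F[X]) : subst w (q.map C) = q.comp (X ^ w + X ^ (w - 1)) := by
  rw [subst, coe_eval₂RingHom, eval₂_map]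
  congr 1
  ext c
  simp

/-- The lemma of Gurjar, Korwar and Saxena. -/
theorem gks [CharZero F] (w : ℕ) (hw : 1 ≤ w) (U : Submodule F F[X]) [FiniteDimensional F U]
    (hU : Module.finrank F U ≤ w) (G : F[X][X]) (hG : ∀ j, G.coeff j ∈ U) (hne : G ≠ 0) :
    subst w G ≠ 0 := by
  classical
  have hsupp : G.support.Nonempty := support_nonempty.mpr hne
  obtain ⟨j1, hj1, hmax⟩ := Finset.exists_max_image G.support
    (fun j => (G.coeff j).natDegree + j) hsupp
  set d : ℕ := (G.coeff j1).natDegree + j1 with hd
  set J : Finset ℕ := G.support.filter fun j => (G.coeff j).natDegree + j = d with hJ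
  have hJne : J.Nonempty := ⟨j1, Finset.mem_filter.mpr ⟨hj1, rfl⟩⟩
  have hJmem : ∀ j ∈ J, G.coeff j ≠ 0 ∧ (G.coeff j).natDegree + j = d := fun j hj =>
    ⟨mem_support_iff.mp (Finset.mem_filter.mp hj).1, (Finset.mem_filter.mp hj).2⟩
  -- at most w elements
  have hJcard : J.card ≤ w := by
    have h1 : LinearIndependent F (fun j : J => G.coeff j) := by
      apply linInd_of_natDegree
      · intro j; exact (hJmem j j.2).1
      · intro i j hij
        have h2 := (hJmem i i.2).2
        have h3 := (hJmem j j.2).2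
        simp only at hij
        apply Subtype.ext
        omega
    have h4 : LinearIndependent F (fun j : J => (⟨G.coeff j, hG j⟩ : U)) :=
      LinearIndependent.of_comp U.subtype h1
    have h5 := h4.fintype_card_le_finrank
    rw [Fintype.card_coe] at h5
    omega
  intro h0
  -- coefficients
  have hcoef : ∀ l, l < w → l ≤ w * d → ∑ j ∈ J, (G.coeff j).leadingCoeff * ((j.choose l : ℕ) : F) = 0 := by
    intro l hl hld
    have h1 : subst w G = ∑ j ∈ G.support, ∑ i ∈ Finset.range ((G.coeff j).natDegree + 1),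
        C ((G.coeff j).coeff i) * (X ^ (w * i) * (X ^ w + X ^ (w - 1)) ^ j) := by
      rw [subst, coe_eval₂RingHom, eval₂_eq_sum, Polynomial.sum]
      refine Finset.sum_congr rfl fun j _ => ?_
      rw [coe_compRingHom_apply, comp, eval₂_eq_sum_range, Finset.sum_mul]
      refine Finset.sum_congr rfl fun i _ => ?_
      rw [← pow_mul]
      ring
    have h2 := congrArg (fun p => coeff p (w * d - l)) (h1.symm.trans h0)
    simp only [finsetSum_coeff, coeff_C_mul, coeff_zero] at h2
    have h3 : ∀ j ∈ G.support, ∑ i ∈ Finset.range ((G.coeff j).natDegree + 1),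
        (G.coeff j).coeff i * (X ^ (w * i) * (X ^ w + X ^ (w - 1)) ^ j : F[X]).coeff (w * d - l)
        = if (G.coeff j).natDegree + j = d then (G.coeff j).leadingCoeff * ((j.choose l : ℕ) : F)
          else 0 := by
      intro j hj
      have hjd : (G.coeff j).natDegree + j ≤ d := hmax j hj
      rw [Finset.sum_congr rfl fun i hi => by
        rw [mono_coeff w i j d l hw hl (by have := Finset.mem_range.mp hi; omega) hld]]
      by_cases hjj : (G.coeff j).natDegree + j = d
      · rw [if_pos hjj, Finset.sum_eq_single (G.coeff j).natDegree]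
        · rw [if_pos hjj]; rfl
        · intro i hi hne
          rw [if_neg (by omega), mul_zero]
        · intro h; exact absurd (Finset.mem_range.mpr (by omega)) h
      · rw [if_neg hjj]
        refine Finset.sum_eq_zero fun i hi => ?_
        have := Finset.mem_range.mp hi
        rw [if_neg (by omega), mul_zero]
    rw [Finset.sum_congr rfl h3, ← Finset.sum_filter] at h2
    exact h2
  have hcoef' : ∀ l, l < J.card → ∑ j ∈ J, (G.coeff j).leadingCoeff * ((j.choose l : ℕ) : F) = 0 := by
    intro l hl
    by_cases hld : l ≤ w * d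
    · exact hcoef l (by omega) hld
    · refine Finset.sum_eq_zero fun j hj => ?_
      have h1 := (hJmem j hj).2
      have h2 : d ≤ w * d := Nat.le_mul_of_pos_left d hw
      rw [Nat.choose_eq_zero_of_lt (by omega)]
      simp
  obtain ⟨j, hj⟩ := hJne
  have := sparse_zero J.card J rfl (fun j => (G.coeff j).leadingCoeff) hcoef' j hj
  exact (hJmem j hj).1 (leadingCoeff_eq_zero.mp this)

end Pool.Agent.Lib.MP_64d474_lc.BB91
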