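import Mathlib
import Pool.Agent.Lib.MP_64d474_lc.BB91.Split
import Pool.Agent.Lib.MP_64d474_lc.BB91.Cond

/-!
The span of the `s`-minors is generated by `C(N, s) ^ 2` functions; condensing a hitting set.
-/

namespace Pool.Agent.Lib.MP_64d474_lc.BB91

open Matrix Polynomial

variable {F : Type*} [Field F] {V : Type*} [AddCommGroup V] [Module F V] {N : ℕ}

/-- Subsets of size `s`. -/
abbrev Sub (N s : ℕ) : Type := {S : Finset (Fin N) // S.card = s}

/-- increasing enumeration -/
def enum {s : ℕ} (S : Sub N s) : Fin s → Fin N := S.1.orderEmbOfFin S.2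

theorem exists_perm {s : ℕ} (R : Fin s → Fin N) (hR : Function.Injective R) :
    ∃ (S : Sub N s) (σ : Equiv.Perm (Fin s)), R = fun i => enum S (σ i) := by
  classical
  have hc : (Finset.univ.image R).card = s := by
    rw [Finset.card_image_of_injective _ hR]; simp
  let S : Sub N s := ⟨Finset.univ.image R, hc⟩
  have hmem : ∀ i, R i ∈ S.1 := fun i => Finset.mem_image_of_mem _ (Finset.mem_univ i)
  let f : Fin s → Fin s := fun i => (S.1.orderIsoOfFin S.2).symm ⟨R i, hmem i⟩
  have hf : Function.Injective f := by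
    intro i j hij
    have := (S.1.orderIsoOfFin S.2).symm.injective hij
    exact hR (Subtype.ext_iff.mp this)
  refine ⟨S, Equiv.ofBijective f (Finite.injective_iff_bijective.mp hf), ?_⟩
  funext i
  have h1 : enum S (f i) = ((S.1.orderIsoOfFin S.2) (f i) : Fin N) := rfl
  change R i = enum S (f i)
  rw [h1]
  simp [f]

/-- A sorted minor. -/
def smin (A : V →ₗ[F] Matrix (Fin N) (Fin N) F) {s : ℕ} (p : Sub N s × Sub N s) : V → F :=
  fun x => ((A x).submatrix (enum p.1) (enum p.2)).det

theorem minors_le (A : V →ₗ[F] Matrix (Fin N) (Fin N) F) (s : ℕ) :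
    minors A s ≤ Submodule.span F (Set.range (smin A (s := s))) := by
  classical
  rw [minors, Submodule.span_le]
  rintro _ ⟨⟨R, C⟩, rfl⟩
  rw [SetLike.mem_coe]
  by_cases hR : Function.Injective R
  · by_cases hC : Function.Injective C
    · obtain ⟨S, σ, hS⟩ := exists_perm R hR
      obtain ⟨T, τ, hT⟩ := exists_perm C hC
      have h1 : (fun x => ((A x).submatrix R C).det)
          = (((Equiv.Perm.sign σ : ℤ) : F) * ((Equiv.Perm.sign τ : ℤ) : F)) • smin A (S, T) := by
        funext x
        have h2 : (A x).submatrix R C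
            = (((A x).submatrix (enum S) (enum T)).submatrix id τ).submatrix σ id := by
          ext i j
          simp [hS, hT]
        rw [h2, Matrix.det_permute, Matrix.det_permute']
        simp only [Pi.smul_apply, smul_eq_mul, smin]
        ring
      change (fun x => ((A x).submatrix R C).det) ∈ _
      rw [h1]
      exact Submodule.smul_mem _ _ (Submodule.subset_span ⟨(S, T), rfl⟩)
    · have h1 : (fun x => ((A x).submatrix R C).det) = 0 := by
        rw [Function.Injective] at hC
        push Not at hC
        obtain ⟨i, j, hij, hne⟩ := hC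
        funext x
        exact Matrix.det_zero_of_column_eq hne fun k => by simp [hij]
      change (fun x => ((A x).submatrix R C).det) ∈ _
      rw [h1]
      exact Submodule.zero_mem _
  · have h1 : (fun x => ((A x).submatrix R C).det) = 0 := by
      rw [Function.Injective] at hR
      push Not at hR
      obtain ⟨i, j, hij, hne⟩ := hR
      funext x
      exact Matrix.det_zero_of_row_eq hne (by ext k; simp [hij])
    change (fun x => ((A x).submatrix R C).det) ∈ _
    rw [h1]
    exact Submodule.zero_mem _

theorem card_pairs (N s : ℕ) : Fintype.card (Sub N s × Sub N s) = (N.choose s) ^ 2 := by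
  rw [Fintype.card_prod, Fintype.card_finset_len, Fintype.card_fin, sq]

/-- Linear map of a tuple of matrices. -/
def lin {m : ℕ} (B : Fin m → Matrix (Fin N) (Fin N) F) :
    (Fin m → F) →ₗ[F] Matrix (Fin N) (Fin N) F where
  toFun x := ∑ k, x k • B k
  map_add' x y := by simp [add_smul, Finset.sum_add_distrib]
  map_smul' c x := by simp [mul_smul, Finset.smul_sum]

theorem lin_apply {m : ℕ} (B : Fin m → Matrix (Fin N) (Fin N) F) (x : Fin m → F) :
    lin B x = ∑ k, x k • B k := rfl

/-- the polynomial of a sorted minor along a curve -/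
noncomputable def along {m : ℕ} (B : Fin m → Matrix (Fin N) (Fin N) F) (γ : Fin m → F[X]) {s : ℕ}
    (p : Sub N s × Sub N s) : F[X] :=
  ((∑ k, γ k • (B k).map C).submatrix (enum p.1) (enum p.2)).det

theorem along_eval {m : ℕ} (B : Fin m → Matrix (Fin N) (Fin N) F) (γ : Fin m → F[X]) {s : ℕ}
    (p : Sub N s × Sub N s) (v : F) :
    (along B γ p).eval v = smin (lin B) p (fun k => (γ k).eval v) := by
  rw [along, ← coe_evalRingHom, RingHom.map_det, smin]
  congr 1
  ext i j
  simp [lin_apply, Matrix.sum_apply, eval_finsetSum]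

theorem along_natDegree {m : ℕ} (B : Fin m → Matrix (Fin N) (Fin N) F) (γ : Fin m → F[X]) (D : ℕ)
    (hγ : ∀ k, (γ k).natDegree ≤ D) {s : ℕ} (p : Sub N s × Sub N s) :
    (along B γ p).natDegree ≤ s * D := by
  rw [along, Matrix.det_apply']
  refine natDegree_sum_le_of_forall_le _ _ fun σ _ => ?_
  have h1 : (((Equiv.Perm.sign σ : ℤ) : F[X])) = C (((Equiv.Perm.sign σ : ℤ) : F)) := by simp
  rw [h1]
  refine (natDegree_C_mul_le _ _).trans ?_
  refine (natDegree_prod_le _ _).trans ?_
  calc ∑ i, (((∑ k, γ k • (B k).map C).submatrix (enum p.1) (enum p.2)) (σ i) i).natDegree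
      ≤ ∑ _i : Fin s, D := by
        refine Finset.sum_le_sum fun j _ => ?_
        rw [Matrix.submatrix_apply, Matrix.sum_apply]
        refine natDegree_sum_le_of_forall_le _ _ fun k _ => ?_
        simp only [Matrix.smul_apply, Matrix.map_apply, smul_eq_mul]
        refine (natDegree_mul_le).trans ?_
        rw [natDegree_C, add_zero]
        exact hγ k
    _ = s * D := by simp

/-- Condensing a hitting set along a curve through its points. -/
theorem condense_hits [CharZero F] {m : ℕ} (B : Fin m → Matrix (Fin N) (Fin N) F) (s D : ℕ)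
    (γ : Fin m → F[X]) (hγ : ∀ k, (γ k).natDegree ≤ D) (Q : Set (Fin m → F))
    (hQ : Hits Q (minors (lin B) s)) (hnode : ∀ q ∈ Q, ∃ v : F, q = fun k => (γ k).eval v) :
    ∃ a : ℕ, a ≤ (N.choose s) ^ 2 * (s * D) ∧
      Hits {z | ∃ i, i < (N.choose s) ^ 2 ∧ z = fun k => (γ k).eval ((2 : F) ^ i * (a : F))}
        (minors (lin B) s) := by
  classical
  let e : Fin ((N.choose s) ^ 2) ≃ Sub N s × Sub N s :=
    (Fintype.equivFinOfCardEq (card_pairs N s)).symm
  obtain ⟨a, ha, hcond⟩ := condenser ((N.choose s) ^ 2) (s * D) (fun i => along B γ (e i))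
    (fun i => along_natDegree B γ D hγ (e i))
  refine ⟨a, ha, ?_⟩
  intro g hg hz
  have hg' := minors_le (lin B) s hg
  obtain ⟨c, hc⟩ := (Submodule.mem_span_range_iff_exists_fun F).mp hg'
  let p : F[X] := ∑ i, c (e i) • along B γ (e i)
  have hpeval : ∀ v : F, p.eval v = g (fun k => (γ k).eval v) := by
    intro v
    simp only [p, eval_finsetSum, eval_smul, smul_eq_mul, along_eval]
    rw [← hc]
    simp only [Finset.sum_apply, Pi.smul_apply, smul_eq_mul]
    exact Equiv.sum_comp e (fun q => c q * smin (lin B) q (fun k => (γ k).eval v))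
  have hpmem : p ∈ Submodule.span F (Set.range fun i => along B γ (e i)) :=
    Submodule.sum_mem _ fun i _ => Submodule.smul_mem _ _ (Submodule.subset_span ⟨i, rfl⟩)
  have hp0 : p = 0 := by
    apply hcond p hpmem
    intro i hi
    rw [hpeval]
    exact hz _ ⟨i, hi, rfl⟩
  apply hQ g hg
  intro q hq
  obtain ⟨v, rfl⟩ := hnode q hq
  rw [← hpeval, hp0, eval_zero]

end Pool.Agent.Lib.MP_64d474_lc.BB91
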