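import Mathlib
import Pool.Agent.Lib.MP_64d474_lc.BB91.Gen
import Pool.Agent.Lib.MP_64d474_lc.BB91.GKS

/-!
One explicit curve which hits all nonzero combinations of `D × D` minors.
-/

namespace Pool.Agent.Lib.MP_64d474_lc.BB91

open Matrix Polynomial

variable {F : Type*} [Field F] {N m : ℕ}

/-- The span of the restrictions of the `s`-minors to a curve. -/
noncomputable def Ualong (B : Fin m → Matrix (Fin N) (Fin N) F) (γ : Fin m → F[X]) (s : ℕ) :
    Submodule F F[X] := Submodule.span F (Set.range fun p : Sub N s × Sub N s => along B γ p)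

instance (B : Fin m → Matrix (Fin N) (Fin N) F) (γ : Fin m → F[X]) (s : ℕ) :
    FiniteDimensional F (Ualong B γ s) := FiniteDimensional.span_of_finite F (Set.finite_range _)

theorem finrank_Ualong (B : Fin m → Matrix (Fin N) (Fin N) F) (γ : Fin m → F[X]) (s : ℕ) :
    Module.finrank F (Ualong B γ s) ≤ (N.choose s) ^ 2 := by
  have h := finrank_range_le_card (R := F) (fun p : Sub N s × Sub N s => along B γ p)
  rw [card_pairs] at h
  exact h

theorem Ualong_natDegree (B : Fin m → Matrix (Fin N) (Fin N) F) (γ : Fin m → F[X]) (e : ℕ)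
    (hγ : ∀ k, (γ k).natDegree ≤ e) (s : ℕ) (p : F[X]) (hp : p ∈ Ualong B γ s) :
    p.natDegree ≤ s * e := by
  have h1 : Ualong B γ s ≤ degreeLE F ((s * e : ℕ) : WithBot ℕ) := by
    rw [Ualong, Submodule.span_le]
    rintro _ ⟨q, rfl⟩
    rw [SetLike.mem_coe, mem_degreeLE]
    exact natDegree_le_iff_degree_le.mp (along_natDegree B γ e hγ q)
  have h2 := h1 hp
  rw [mem_degreeLE] at h2
  exact natDegree_le_iff_degree_le.mpr h2

theorem exists_along (B : Fin m → Matrix (Fin N) (Fin N) F) (γ : Fin m → F[X]) (s : ℕ)
    (g : (Fin m → F) → F) (hg : g ∈ minors (lin B) s) :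
    ∃ p ∈ Ualong B γ s, ∀ v : F, p.eval v = g (fun k => (γ k).eval v) := by
  obtain ⟨c, hc⟩ := (Submodule.mem_span_range_iff_exists_fun F).mp (minors_le (lin B) s hg)
  refine ⟨∑ i, c i • along B γ i, ?_, ?_⟩
  · exact Submodule.sum_mem _ fun i _ => Submodule.smul_mem _ _ (Submodule.subset_span ⟨i, rfl⟩)
  · intro v
    simp only [eval_finsetSum, eval_smul, smul_eq_mul, along_eval]
    rw [← hc]
    simp only [Finset.sum_apply, Pi.smul_apply, smul_eq_mul]

/-- The points of a curve. -/
def cpts (γ : Fin m → F[X]) : Set (Fin m → F) := {z | ∃ v : F, z = fun k => (γ k).eval v}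

/-- The joined curve `γ (t ^ w) + t ^ M δ (t ^ w + t ^ (w - 1))`. -/
noncomputable def joinP {R : Type*} [CommSemiring R] (w M : ℕ) (γ δ : Fin m → R[X]) :
    Fin m → R[X] :=
  fun k => (γ k).comp (X ^ w) + X ^ M * (δ k).comp (X ^ w + X ^ (w - 1))

/-- The main step. -/
theorem join_hits [CharZero F] (B : Fin m → Matrix (Fin N) (Fin N) F) (a b e w M : ℕ)
    (γ δ : Fin m → F[X]) (hγ : ∀ k, (γ k).natDegree ≤ e) (hδ : ∀ k, (δ k).natDegree ≤ e)
    (hw : 1 ≤ w) (hwa : (N.choose a) ^ 2 ≤ w) (hM : (a + b) * w * e < M)
    (hP : Hits (cpts γ) (minors (lin B) a)) (hQ : Hits (cpts δ) (minors (lin B) b)) :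
    Hits (cpts (joinP w M γ δ)) (minors (lin B) (a + b)) := by
  classical
  intro g hg hz
  obtain ⟨h, h1, h2, h3⟩ := split_exists (lin B) (a + b) g hg
  refine split_zero (lin B) a b (cpts γ) (cpts δ) hP hQ g hg h h1 h2 h3 ?_
  by_contra hcon
  push Not at hcon
  obtain ⟨_, ⟨u0, rfl⟩, _, ⟨v0, rfl⟩, hne⟩ := hcon
  -- the two variable functions
  set H : ℕ → F → F → F := fun c u v => h c (fun k => (γ k).eval u) (fun k => (δ k).eval v) with hH
  -- the polynomials in the first variable, at the nodes
  have hp : ∀ c, c ≤ a + b → ∀ i : ℕ, ∃ p ∈ Ualong B γ (a + b - c), ∀ u : F, p.eval u = H c u i := by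
    intro c hc i
    obtain ⟨p, hpU, hpe⟩ := exists_along B γ (a + b - c) _ (h2 c hc (fun k => (δ k).eval (i : F)))
    exact ⟨p, hpU, hpe⟩
  choose! p hpU hpe using hp
  let nodes : Finset ℕ → ℕ → F := fun _ i => (i : F)
  let ell : ℕ → ℕ → F[X] := fun c i => Lagrange.basis (Finset.range (c * e + 1)) (fun i : ℕ => (i : F)) i
  -- interpolation in the second variable
  have hint : ∀ c, c ≤ a + b → ∀ u v : F,
      H c u v = ∑ i ∈ Finset.range (c * e + 1), H c u i * (ell c i).eval v := by
    intro c hc u v
    obtain ⟨q, hqU, hqe⟩ := exists_along B δ c _ (h3 c hc (fun k => (γ k).eval u))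
    have hqd : q.natDegree ≤ c * e := Ualong_natDegree B δ e hδ c q hqU
    have hq : q = Lagrange.interpolate (Finset.range (c * e + 1)) (fun i : ℕ => (i : F))
        (fun i : ℕ => H c u i) := by
      apply Lagrange.eq_interpolate_of_eval_eq
      · intro x _ y _ hxy
        exact Nat.cast_injective hxy
      · rw [Finset.card_range]
        refine lt_of_le_of_lt degree_le_natDegree ?_
        exact_mod_cast Nat.lt_succ_of_le hqd
      · intro i _
        exact hqe (i : F)
    have h4 : H c u v = q.eval v := (hqe v).symm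
    rw [h4, hq, Lagrange.interpolate_apply, eval_finsetSum]
    refine Finset.sum_congr rfl fun i _ => ?_
    rw [eval_mul, eval_C]
  -- the polynomial in t of block c
  let Q : ℕ → F[X] := fun c => ∑ i ∈ Finset.range (c * e + 1),
    (p c i).comp (X ^ w) * (ell c i).comp (X ^ w + X ^ (w - 1))
  have hQe : ∀ c, c ≤ a + b → ∀ t : F, (Q c).eval t = H c (t ^ w) (t ^ w + t ^ (w - 1)) := by
    intro c hc t
    simp only [Q, eval_finsetSum, eval_mul, eval_comp, eval_pow, eval_X, eval_add]
    rw [hint c hc]
    refine Finset.sum_congr rfl fun i _ => ?_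
    rw [hpe c hc i]
  have hQd : ∀ c, c ≤ a + b → (Q c).natDegree < M := by
    intro c hc
    refine lt_of_le_of_lt (natDegree_sum_le_of_forall_le _ _ (n := (a + b) * w * e) ?_) hM
    intro i hi
    have hi' := Finset.mem_range.mp hi
    refine natDegree_mul_le.trans ?_
    have e1 : ((p c i).comp (X ^ w)).natDegree ≤ (a + b - c) * e * w := by
      refine natDegree_comp_le.trans ?_
      rw [natDegree_X_pow]
      exact Nat.mul_le_mul_right _ (Ualong_natDegree B γ e hγ _ _ (hpU c hc i))
    have e2 : ((ell c i).comp (X ^ w + X ^ (w - 1))).natDegree ≤ c * e * w := by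
      refine natDegree_comp_le.trans ?_
      have e3 : (X ^ w + X ^ (w - 1) : F[X]).natDegree ≤ w := by
        refine (natDegree_add_le _ _).trans (max_le ?_ ?_)
        · exact (natDegree_X_pow_le _)
        · exact (natDegree_X_pow_le _).trans (Nat.sub_le _ _)
      have e4 : (ell c i).natDegree ≤ c * e := by
        have e5 : (ell c i).degree = ((c * e : ℕ) : WithBot ℕ) := by
          have := Lagrange.degree_basis (s := Finset.range (c * e + 1)) (v := fun i : ℕ => (i : F))
            (fun x _ y _ hxy => Nat.cast_injective hxy) hi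
          rw [Finset.card_range] at this
          simpa using this
        exact natDegree_le_iff_degree_le.mpr e5.le
      exact Nat.mul_le_mul e4 e3
    calc _ ≤ (a + b - c) * e * w + c * e * w := Nat.add_le_add e1 e2
      _ = (a + b - c + c) * e * w := by ring
      _ = (a + b) * e * w := by rw [Nat.sub_add_cancel hc]
      _ = (a + b) * w * e := by ring
  -- the total polynomial vanishes
  let R : F[X] := ∑ c ∈ Finset.range (a + b + 1), X ^ (M * c) * Q c
  have hR : R = 0 := by
    apply Polynomial.funext
    intro t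
    rw [eval_zero]
    simp only [R, eval_finsetSum, eval_mul, eval_pow, eval_X]
    have h5 := hz (fun k => (joinP w M γ δ k).eval t) ⟨t, rfl⟩
    have h6 : (fun k => (joinP w M γ δ k).eval t)
        = (fun k => (γ k).eval (t ^ w)) + (t ^ M) • (fun k => (δ k).eval (t ^ w + t ^ (w - 1))) := by
      funext k
      simp [joinP, eval_comp]
    rw [h6, h1] at h5
    rw [← h5]
    refine Finset.sum_congr rfl fun c hc => ?_
    have hc' : c ≤ a + b := by have := Finset.mem_range.mp hc; omega
    rw [hQe c hc', ← pow_mul]
  have hQb : Q b = 0 := by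
    ext j
    rw [coeff_zero]
    by_cases hj : j < M
    · have h7 := congrArg (fun r => coeff r (M * b + j)) hR
      simp only [R, finsetSum_coeff, coeff_zero] at h7
      rw [Finset.sum_eq_single b] at h7
      · rw [coeff_X_pow_mul', if_pos (by omega)] at h7
        rw [← h7]
        congr 1
        omega
      · intro c hc hcb
        have hc' : c ≤ a + b := by have := Finset.mem_range.mp hc; omega
        rw [coeff_X_pow_mul']
        rcases lt_or_gt_of_ne hcb with hlt | hgt
        · have h8 : M * (c + 1) ≤ M * b := Nat.mul_le_mul_left _ hlt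
          have h9 : M * (c + 1) = M * c + M := by ring
          rw [if_pos (by omega)]
          apply coeff_eq_zero_of_natDegree_lt
          have := hQd c hc'
          omega
        · have h8 : M * (b + 1) ≤ M * c := Nat.mul_le_mul_left _ hgt
          have h9 : M * (b + 1) = M * b + M := by ring
          rw [if_neg (by omega)]
      · intro hb
        exact absurd (Finset.mem_range.mpr (by omega)) hb
    · apply coeff_eq_zero_of_natDegree_lt
      have := hQd b (by omega)
      omega
  -- contradiction with the lemma of Gurjar, Korwar and Saxena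
  let G : F[X][X] := ∑ i ∈ Finset.range (b * e + 1), C (p b i) * (ell b i).map C
  have hSG : subst w G = Q b := by
    simp only [G, map_sum, map_mul, subst_C, subst_map, Q]
  have hab : a + b - b = a := by omega
  have hGU : ∀ j, G.coeff j ∈ Ualong B γ a := by
    intro j
    simp only [G, finsetSum_coeff, coeff_C_mul, coeff_map]
    refine Submodule.sum_mem _ fun i _ => ?_
    have h10 : p b i * C ((ell b i).coeff j) = ((ell b i).coeff j) • p b i := by
      rw [mul_comm, smul_eq_C_mul]
    rw [h10]
    refine Submodule.smul_mem _ _ ?_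
    have := hpU b (by omega) i
    rwa [hab] at this
  have hGne : G ≠ 0 := by
    intro h0
    apply hne
    have h11 : H b u0 v0 = 0 := by
      rw [hint b (by omega)]
      have h12 := congrArg (fun q => (q.map (evalRingHom u0)).eval v0) h0
      simp only [G, Polynomial.map_sum, Polynomial.map_mul, map_C, Polynomial.map_map,
        eval_finsetSum, eval_mul, eval_C, coe_evalRingHom, Polynomial.map_zero, eval_zero] at h12
      rw [← h12]
      refine Finset.sum_congr rfl fun i _ => ?_
      rw [hpe b (by omega) i]
      congr 1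
      have h13 : (evalRingHom u0).comp (C : F →+* F[X]) = RingHom.id F := by
        ext c
        simp
      rw [h13, Polynomial.map_id]
    exact h11
  have := gks w hw (Ualong B γ a) ((finrank_Ualong B γ a).trans hwa) G hGU hGne
  rw [hSG] at this
  exact this hQb

end Pool.Agent.Lib.MP_64d474_lc.BB91
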