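import Mathlib

/-!
The explicit curve `curve R m N D : R → R ^ m` (`R` any commutative semiring, in particular `ℕ`).
-/

namespace Pool.Agent.Lib.MP_64d474_lc.BB91

variable {R : Type*} [CommSemiring R] {m : ℕ}

/-- `c_1 (t) = (1, t, …, t ^ (m - 1))`. -/
def unitCurve (R : Type*) [CommSemiring R] (m : ℕ) : R → Fin m → R := fun t k => t ^ (k : ℕ)

/-- `γ (t ^ w) + t ^ M δ (t ^ w + t ^ (w - 1))`. -/
def joinC (w M : ℕ) (γ δ : R → Fin m → R) : R → Fin m → R :=
  fun t k => γ (t ^ w) k + t ^ M * δ (t ^ w + t ^ (w - 1)) k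

/-- Degree bounds (`f = log 2 s`). -/
def deg (m N : ℕ) : ℕ → ℕ → ℕ
  | 0, _ => m + 1
  | f + 1, s =>
    if s % 2 = 0 then (s + 2) * ((N.choose (s / 2)) ^ 2) * deg m N f (s / 2)
    else (s + 2) * N ^ 2 * ((s + 1) * ((N.choose (s / 2)) ^ 2) * deg m N f (s / 2))

/-- The curve `c_s` (`f = log 2 s`): `c_s` is the join of `c_(s/2)` with itself, for odd `s`
this is joined with `c_1`. -/
def crv (R : Type*) [CommSemiring R] (m N : ℕ) : ℕ → ℕ → R → Fin m → R
  | 0, _ => unitCurve R m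
  | f + 1, s =>
    if s % 2 = 0 then
      joinC ((N.choose (s / 2)) ^ 2) (s * ((N.choose (s / 2)) ^ 2) * deg m N f (s / 2) + 1)
        (crv R m N f (s / 2)) (crv R m N f (s / 2))
    else
      joinC (N ^ 2) (s * N ^ 2 * ((s + 1) * ((N.choose (s / 2)) ^ 2) * deg m N f (s / 2)) + 1)
        (unitCurve R m)
        (joinC ((N.choose (s / 2)) ^ 2)
          ((s - 1) * ((N.choose (s / 2)) ^ 2) * deg m N f (s / 2) + 1)
          (crv R m N f (s / 2)) (crv R m N f (s / 2)))

/-- The curve for the `D × D` minors of `N × N` matrices. -/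
def curve (R : Type*) [CommSemiring R] (m N D : ℕ) : R → Fin m → R := crv R m N (Nat.log 2 D) D

/-- The number of exceptional values. -/
def exc (m N D : ℕ) : ℕ := D * deg m N (Nat.log 2 D) D

end Pool.Agent.Lib.MP_64d474_lc.BB91
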