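import Mathlib

/-!
The function `x log (8 N / x)` and the bound `C(N, s) ≤ (8 N / s) ^ s`.
-/

namespace Pool.Agent.Lib.MP_64d474_lc.BB91

open Real

/-- `x log (8 N / x)` -/
noncomputable def psi (N x : ℝ) : ℝ := x * Real.log (8 * N / x)

theorem psi_nonneg {N x : ℝ} (hx : 0 < x) (hN : x ≤ N) : 0 ≤ psi N x := by
  refine mul_nonneg hx.le (Real.log_nonneg ?_)
  rw [le_div_iff₀ hx]
  nlinarith

theorem psi_mono {N x y : ℝ} (hx : 0 < x) (hxy : x ≤ y) (hN : y ≤ N) : psi N x ≤ psi N y := by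
  have hy : 0 < y := lt_of_lt_of_le hx hxy
  have hN0 : 0 < N := lt_of_lt_of_le hy hN
  have h1 : Real.log (8 * N / x) = Real.log (8 * N / y) + Real.log (y / x) := by
    rw [← Real.log_mul (by positivity) (by positivity)]
    congr 1
    field_simp
  have h2 : Real.log (y / x) ≤ y / x - 1 := Real.log_le_sub_one_of_pos (by positivity)
  have h3 : x * Real.log (y / x) ≤ y - x := by
    calc x * Real.log (y / x) ≤ x * (y / x - 1) := mul_le_mul_of_nonneg_left h2 hx.le
      _ = y - x := by field_simp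
  have h4 : 1 ≤ Real.log (8 * N / y) := by
    rw [Real.le_log_iff_exp_le (by positivity)]
    have h5 := Real.exp_one_lt_d9
    have h6 : (8 : ℝ) ≤ 8 * N / y := by
      rw [le_div_iff₀ hy]
      nlinarith
    linarith
  unfold psi
  rw [h1]
  nlinarith

theorem psi_half {N x : ℝ} (hx : 0 < x) (hN : x ≤ N) : psi N (x / 2) ≤ 2 / 3 * psi N x := by
  have hN0 : 0 < N := lt_of_lt_of_le hx hN
  have h1 : Real.log (8 * N / (x / 2)) = Real.log (8 * N / x) + Real.log 2 := by
    rw [← Real.log_mul (by positivity) (by positivity)]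
    congr 1
    field_simp
  have h2 : 3 * Real.log 2 ≤ Real.log (8 * N / x) := by
    have h3 : (3 : ℝ) * Real.log 2 = Real.log (2 ^ 3) := by
      rw [Real.log_pow]; norm_num
    rw [h3]
    apply Real.log_le_log (by norm_num)
    rw [le_div_iff₀ hx]
    nlinarith
  unfold psi
  rw [h1]
  nlinarith

theorem exp_psi {N x : ℝ} (hx : 0 < x) (hN : 0 < N) (c : ℕ) (n : ℕ) (hn : x = n) :
    Real.exp (c * psi N x) = (8 * N / x) ^ (c * n) := by
  have h1 : (c : ℝ) * psi N x = ((c * n : ℕ) : ℝ) * Real.log (8 * N / x) := by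
    unfold psi
    rw [hn]
    push_cast
    ring
  rw [h1, Real.exp_nat_mul, Real.exp_log (by positivity)]

theorem choose_le_exp {N s : ℕ} (hs : 1 ≤ s) (hN : s ≤ N) :
    ((N.choose s : ℕ) : ℝ) ≤ Real.exp (psi N s) := by
  have hs0 : (0 : ℝ) < s := by exact_mod_cast hs
  have hN0 : (0 : ℝ) < N := by exact_mod_cast (lt_of_lt_of_le hs hN)
  have h1 : ((N.choose s : ℕ) : ℝ) ≤ (N : ℝ) ^ s / (s.factorial : ℝ) :=
    Nat.choose_le_pow_div s N
  have h2 : (s : ℝ) ^ s / (s.factorial : ℝ) ≤ Real.exp s :=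
    Real.pow_div_factorial_le_exp s hs0.le s
  have h3 : Real.exp (psi N s) = (8 * (N : ℝ) / s) ^ s := by
    have := exp_psi (N := (N : ℝ)) (x := (s : ℝ)) hs0 hN0 1 s rfl
    simpa using this
  rw [h3]
  have hf : (0 : ℝ) < (s.factorial : ℝ) := by exact_mod_cast Nat.factorial_pos s
  have h4 : Real.exp s ≤ (8 : ℝ) ^ s := by
    have h5 : Real.exp (s : ℝ) = (Real.exp 1) ^ s := by
      rw [← Real.exp_nat_mul, mul_one]
    rw [h5]
    have h6 := Real.exp_one_lt_d9
    exact pow_le_pow_left₀ (Real.exp_pos 1).le (by linarith) s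
  calc ((N.choose s : ℕ) : ℝ) ≤ (N : ℝ) ^ s / (s.factorial : ℝ) := h1
    _ = ((N : ℝ) / s) ^ s * ((s : ℝ) ^ s / (s.factorial : ℝ)) := by
        rw [div_pow]
        field_simp
    _ ≤ ((N : ℝ) / s) ^ s * 8 ^ s := by
        refine mul_le_mul_of_nonneg_left (h2.trans h4) (by positivity)
    _ = (8 * (N : ℝ) / s) ^ s := by
        rw [← mul_pow]
        congr 1
        ring

end Pool.Agent.Lib.MP_64d474_lc.BB91
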