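import Mathlib
import Pool.Agent.Lib.MP_64d474_lc.BB91.Def
import Pool.Agent.Lib.MP_64d474_lc.BB91.Curve
import Pool.Agent.Lib.MP_64d474_lc.BB91.Psi

/-!
The curve hits all nonzero combinations of minors, for all but few values of the parameter.
-/

namespace Pool.Agent.Lib.MP_64d474_lc.BB91

open Matrix Polynomial

variable {F : Type*} [Field F] {N m : ℕ}

/-- Data of a curve: polynomials of degree `≤ e` whose values hit. -/
def Good (B : Fin m → Matrix (Fin N) (Fin N) F) (s e : ℕ) (c : F → Fin m → F) : Prop :=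
  ∃ γ : Fin m → F[X], (∀ k, (γ k).natDegree ≤ e) ∧ (∀ t k, (γ k).eval t = c t k) ∧
    Hits (cpts γ) (minors (lin B) s)

theorem joinP_natDegree (w M e e' : ℕ) (γ δ : Fin m → F[X]) (hγ : ∀ k, (γ k).natDegree ≤ e)
    (hδ : ∀ k, (δ k).natDegree ≤ e) (h1 : M + w * e ≤ e') (k : Fin m) :
    (joinP w M γ δ k).natDegree ≤ e' := by
  have e3 : (X ^ w + X ^ (w - 1) : F[X]).natDegree ≤ w := by
    refine (natDegree_add_le _ _).trans (max_le ?_ ?_)
    · exact (natDegree_X_pow_le _)
    · exact (natDegree_X_pow_le _).trans (Nat.sub_le _ _)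
  refine (natDegree_add_le _ _).trans (max_le ?_ ?_)
  · refine natDegree_comp_le.trans ?_
    rw [natDegree_X_pow]
    have : (γ k).natDegree * w ≤ e * w := Nat.mul_le_mul_right _ (hγ k)
    have h2 : e * w = w * e := Nat.mul_comm _ _
    omega
  · refine natDegree_mul_le.trans ?_
    rw [natDegree_X_pow]
    have h3 : ((δ k).comp (X ^ w + X ^ (w - 1))).natDegree ≤ e * w := by
      refine natDegree_comp_le.trans ?_
      exact Nat.mul_le_mul (hδ k) e3
    have h2 : e * w = w * e := Nat.mul_comm _ _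
    omega

theorem good_join [CharZero F] (B : Fin m → Matrix (Fin N) (Fin N) F) (a b e w M e' : ℕ)
    (c d : F → Fin m → F) (hw : 1 ≤ w) (hwa : (N.choose a) ^ 2 ≤ w) (hM : (a + b) * w * e < M)
    (he' : M + w * e ≤ e') (hc : Good B a e c) (hd : Good B b e d) :
    Good B (a + b) e' (joinC w M c d) := by
  obtain ⟨γ, hγ1, hγ2, hγ3⟩ := hc
  obtain ⟨δ, hδ1, hδ2, hδ3⟩ := hd
  refine ⟨joinP w M γ δ, joinP_natDegree w M e e' γ δ hγ1 hδ1 he', ?_,
    join_hits B a b e w M γ δ hγ1 hδ1 hw hwa hM hγ3 hδ3⟩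
  intro t k
  simp [joinP, joinC, eval_comp, hγ2, hδ2]

theorem good_mono (B : Fin m → Matrix (Fin N) (Fin N) F) (s e e' : ℕ) (c : F → Fin m → F)
    (h : e ≤ e') (hc : Good B s e c) : Good B s e' c := by
  obtain ⟨γ, h1, h2, h3⟩ := hc
  exact ⟨γ, fun k => (h1 k).trans h, h2, h3⟩

theorem good_unit [CharZero F] (B : Fin m → Matrix (Fin N) (Fin N) F) :
    Good B 1 (m + 1) (unitCurve F m) := by
  classical
  refine ⟨fun k => X ^ (k : ℕ), fun k => ?_, fun t k => by simp [unitCurve], ?_⟩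
  · exact (natDegree_X_pow_le _).trans (by have := k.2; omega)
  · intro g hg hz
    -- g is linear
    have hlin : ∃ φ : (Fin m → F) →ₗ[F] F, ∀ x, φ x = g x := by
      refine Submodule.span_induction (p := fun g _ => ∃ φ : (Fin m → F) →ₗ[F] F, ∀ x, φ x = g x)
        ?_ ?_ ?_ ?_ hg
      · rintro _ ⟨⟨R, C⟩, rfl⟩
        refine ⟨{ toFun := fun x => ((lin B x).submatrix R C).det, map_add' := ?_,
                  map_smul' := ?_ }, fun x => rfl⟩
        · intro x y
          simp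
        · intro c x
          simp
      · exact ⟨0, fun x => rfl⟩
      · rintro g g' _ _ ⟨φ, h⟩ ⟨φ', h'⟩
        exact ⟨φ + φ', fun x => by simp [h, h']⟩
      · rintro c g _ ⟨φ, h⟩
        exact ⟨c • φ, fun x => by simp [h]⟩
    obtain ⟨φ, hφ⟩ := hlin
    have hsum : ∀ x : Fin m → F, φ x = ∑ k, x k * φ (Pi.single k 1) := by
      intro x
      conv_lhs => rw [pi_eq_sum_univ x]
      rw [map_sum]
      refine Finset.sum_congr rfl fun k _ => ?_
      rw [map_smul, smul_eq_mul]
      congr 2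
      funext l
      simp [Pi.single_apply, eq_comm]
    let p : F[X] := ∑ k : Fin m, C (φ (Pi.single k 1)) * X ^ (k : ℕ)
    have hp : p = 0 := by
      apply Polynomial.funext
      intro t
      rw [eval_zero]
      have h1 := hz (fun k => ((X : F[X]) ^ (k : ℕ)).eval t) ⟨t, rfl⟩
      rw [← hφ, hsum] at h1
      rw [← h1]
      simp only [p, eval_finsetSum, eval_mul, eval_C, eval_pow, eval_X]
      refine Finset.sum_congr rfl fun k _ => by ring
    have hcoef : ∀ k : Fin m, φ (Pi.single k 1) = 0 := by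
      intro k
      have h2 := congrArg (fun q => coeff q (k : ℕ)) hp
      simp only [p, finsetSum_coeff, coeff_C_mul_X_pow, coeff_zero] at h2
      rw [Finset.sum_eq_single k] at h2
      · simpa using h2
      · intro l _ hl
        rw [if_neg]
        exact fun h => hl (Fin.ext h.symm)
      · intro h; exact absurd (Finset.mem_univ _) h
    funext x
    rw [← hφ, hsum]
    simp [hcoef]

theorem deg_ge (m N : ℕ) (hN1 : 1 ≤ N) : ∀ (f s : ℕ), s ≤ N → m + 1 ≤ deg m N f s := by
  intro f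
  induction f with
  | zero => intro s _; simp [deg]
  | succ f ih =>
    intro s hN
    have hc : 1 ≤ (N.choose (s / 2)) ^ 2 := Nat.one_le_pow _ _ (Nat.choose_pos (by omega))
    have hN2 : 1 ≤ N ^ 2 := Nat.one_le_pow _ _ (by omega)
    have h2 := ih (s / 2) (by omega)
    have h3 : 1 ≤ (s + 2) * (N.choose (s / 2)) ^ 2 := Nat.mul_pos (by omega) hc
    have h4 : 1 ≤ (s + 1) * (N.choose (s / 2)) ^ 2 := Nat.mul_pos (by omega) hc
    have h5 : 1 ≤ (s + 2) * N ^ 2 := Nat.mul_pos (by omega) hN2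
    rw [deg]
    split_ifs
    · exact h2.trans (Nat.le_mul_of_pos_left _ h3)
    · exact (h2.trans (Nat.le_mul_of_pos_left _ h4)).trans (Nat.le_mul_of_pos_left _ h5)

theorem good_crv [CharZero F] (B : Fin m → Matrix (Fin N) (Fin N) F) :
    ∀ (f s : ℕ), 1 ≤ s → s ≤ N → Nat.log 2 s = f → Good B s (deg m N f s) (crv F m N f s) := by
  intro f
  induction f with
  | zero =>
    intro s hs hN hf
    have h1 : s = 1 := by
      rcases Nat.log_eq_zero_iff.mp hf with h | h <;> omega
    subst h1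
    exact good_unit B
  | succ f ih =>
    intro s hs hN hf
    have h2 : 2 ≤ s := by
      by_contra h
      have : s < 2 := by omega
      rw [Nat.log_of_lt this] at hf
      omega
    have h3 : Nat.log 2 (s / 2) = f := by
      rw [Nat.log_div_base, hf]
      rfl
    have ih' := ih (s / 2) (by omega) (by omega) h3
    set e := deg m N f (s / 2) with he
    set w := (N.choose (s / 2)) ^ 2 with hw
    have hw1 : 1 ≤ w := Nat.one_le_pow _ _ (Nat.choose_pos (by omega))
    have he0 : m + 1 ≤ e := deg_ge m N (by omega) f (s / 2) (by omega)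
    have he1 : 1 ≤ e := by omega
    have hwe : 1 ≤ w * e := Nat.mul_pos hw1 he1
    by_cases hpar : s % 2 = 0
    · have h4 : s / 2 + s / 2 = s := by omega
      have h5 := good_join B (s / 2) (s / 2) e w (s * w * e + 1) ((s + 2) * w * e)
        _ _ hw1 le_rfl (by rw [h4]; omega)
        (by
          have : (s + 2) * w * e = s * w * e + 2 * (w * e) := by ring
          omega) ih' ih'
      rw [h4] at h5
      rw [crv, deg, if_pos hpar, if_pos hpar]
      exact h5
    · have h4 : s / 2 + s / 2 = s - 1 := by omega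
      have h5 := good_join B (s / 2) (s / 2) e w ((s - 1) * w * e + 1) ((s + 1) * w * e)
        _ _ hw1 le_rfl (by rw [h4]; omega)
        (by
          have h6 : s + 1 = (s - 1) + 2 := by omega
          have : ((s - 1) + 2) * w * e = (s - 1) * w * e + 2 * (w * e) := by ring
          rw [h6, this]
          omega) ih' ih'
      rw [h4] at h5
      have hN2 : 1 ≤ N ^ 2 := Nat.one_le_pow _ _ (by omega)
      set e' := (s + 1) * w * e with he'
      have hee : m + 1 ≤ e' :=
        he0.trans (Nat.le_mul_of_pos_left _ (Nat.mul_pos (by omega) hw1))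
      have h8 : 1 ≤ N ^ 2 * e' := by
        have : 1 ≤ e' := by omega
        exact Nat.mul_pos hN2 this
      have h9 := good_join B 1 (s - 1) e' (N ^ 2) (s * N ^ 2 * e' + 1) ((s + 2) * N ^ 2 * e')
        (unitCurve F m) _ hN2 (by rw [Nat.choose_one_right])
        (by
          have : 1 + (s - 1) = s := by omega
          rw [this]; omega)
        (by
          have : (s + 2) * N ^ 2 * e' = s * N ^ 2 * e' + 2 * (N ^ 2 * e') := by ring
          omega) (good_mono B 1 (m + 1) e' _ hee (good_unit B)) h5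
      have h10 : 1 + (s - 1) = s := by omega
      rw [h10] at h9
      rw [crv, deg, if_neg hpar, if_neg hpar]
      exact h9

/-- Every nonzero combination `g` of `D × D` minors is a nonzero polynomial of degree
`≤ exc m N D` along the curve. -/
theorem curve_hits [CharZero F] (B : Fin m → Matrix (Fin N) (Fin N) F) (D : ℕ) (hD : 1 ≤ D)
    (hN : D ≤ N) (g : (Fin m → F) → F) (hg : g ∈ minors (lin B) D) (hne : g ≠ 0) :
    ∃ p : F[X], p ≠ 0 ∧ p.natDegree ≤ exc m N D ∧ ∀ z : F, p.eval z = g (curve F m N D z) := by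
  obtain ⟨γ, h1, h2, h3⟩ := good_crv B (Nat.log 2 D) D hD hN rfl
  obtain ⟨p, hpU, hp⟩ := exists_along B γ D g hg
  have h4 : ∀ z : F, (fun k => (γ k).eval z) = curve F m N D z := by
    intro z
    funext k
    exact h2 z k
  refine ⟨p, ?_, Ualong_natDegree B γ _ h1 D p hpU, fun z => by rw [hp, h4]⟩
  intro h0
  apply hne
  apply h3 g hg
  rintro _ ⟨z, rfl⟩
  rw [← hp, h0, eval_zero]

/-- Compatibility with casts. -/
theorem crv_cast (m N : ℕ) : ∀ (f s : ℕ) (z : ℕ) (k : Fin m),
    ((crv ℕ m N f s z k : ℕ) : F) = crv F m N f s (z : F) k := by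
  intro f
  induction f with
  | zero => intro s z k; simp [crv, unitCurve]
  | succ f ih =>
    intro s z k
    rw [crv, crv]
    split_ifs
    · simp only [joinC]
      push_cast
      rw [ih, ih]
      push_cast
      rfl
    · simp only [joinC, unitCurve]
      push_cast
      rw [ih, ih]
      push_cast
      rfl

theorem curve_cast (m N D : ℕ) (z : ℕ) (k : Fin m) :
    ((curve ℕ m N D z k : ℕ) : F) = curve F m N D (z : F) k := crv_cast m N _ _ z k

open Real in
theorem four_pow_le {N s : ℕ} (hs : 2 ≤ s) (hN : s ≤ N) :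
    (4 : ℝ) * (s : ℝ) ^ 2 * (N : ℝ) ^ 2 ≤ Real.exp (psi N s) := by
  have hs0 : (0 : ℝ) < s := by
    have : 0 < s := by omega
    exact_mod_cast this
  have hN0 : (0 : ℝ) < N := by
    have : 0 < N := by omega
    exact_mod_cast this
  have h3 : Real.exp (psi N s) = (8 * (N : ℝ) / s) ^ s := by
    have := exp_psi (N := (N : ℝ)) (x := (s : ℝ)) hs0 hN0 1 s rfl
    simpa using this
  rw [h3]
  have h4 : (4 : ℝ) * (s : ℝ) ^ 4 ≤ 8 ^ s := by
    have h6 : ∀ t : ℕ, 4 * (t + 2) ^ 4 ≤ 8 ^ (t + 2) := by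
      intro t
      induction t with
      | zero => norm_num
      | succ t ih =>
        have h7 : (t + 1 + 2) ^ 4 ≤ 8 * (t + 2) ^ 4 := by
          have h8 : 2 * (t + 3) ≤ 3 * (t + 2) := by omega
          have h9 : (2 * (t + 3)) ^ 4 ≤ (3 * (t + 2)) ^ 4 := Nat.pow_le_pow_left h8 4
          have h10 : (2 * (t + 3)) ^ 4 = 16 * (t + 1 + 2) ^ 4 := by ring
          have h11 : (3 * (t + 2)) ^ 4 = 81 * (t + 2) ^ 4 := by ring
          omega
        calc 4 * (t + 1 + 2) ^ 4 ≤ 4 * (8 * (t + 2) ^ 4) := Nat.mul_le_mul_left _ h7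
          _ = 8 * (4 * (t + 2) ^ 4) := by ring
          _ ≤ 8 * 8 ^ (t + 2) := Nat.mul_le_mul_left _ ih
          _ = 8 ^ (t + 1 + 2) := by ring
    obtain ⟨t, rfl⟩ : ∃ t, s = t + 2 := ⟨s - 2, by omega⟩
    exact_mod_cast h6 t
  have h8 : (1 : ℝ) ≤ (N : ℝ) / s := by
    rw [le_div_iff₀ hs0, one_mul]
    exact_mod_cast hN
  have h9 : ((N : ℝ) / s) ^ 2 ≤ ((N : ℝ) / s) ^ s := pow_le_pow_right₀ h8 hs
  calc (4 : ℝ) * (s : ℝ) ^ 2 * (N : ℝ) ^ 2 = (4 * (s : ℝ) ^ 4) * ((N : ℝ) / s) ^ 2 := by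
        field_simp
    _ ≤ 8 ^ s * ((N : ℝ) / s) ^ s := by
        apply mul_le_mul h4 h9 (by positivity) (by positivity)
    _ = (8 * (N : ℝ) / s) ^ s := by
        rw [← mul_pow]
        congr 1
        ring

open Real in
theorem deg_le (m N : ℕ) : ∀ (f s : ℕ), 1 ≤ s → s ≤ N → Nat.log 2 s = f →
    ((deg m N f s : ℕ) : ℝ) ≤ (m + 1) * Real.exp (7 * psi N s) := by
  intro f
  induction f with
  | zero =>
    intro s hs hN hf
    have hs0 : (0 : ℝ) < s := by exact_mod_cast hs
    have hsN : (s : ℝ) ≤ N := by exact_mod_cast hN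
    have h1 : (1 : ℝ) ≤ Real.exp (7 * psi N s) := by
      rw [Real.one_le_exp_iff]
      exact mul_nonneg (by norm_num) (psi_nonneg hs0 hsN)
    simp only [deg]
    push_cast
    have h2 : (0 : ℝ) ≤ m := by positivity
    nlinarith
  | succ f ih =>
    intro s hs hN hf
    have h2 : 2 ≤ s := by
      by_contra h
      have : s < 2 := by omega
      rw [Nat.log_of_lt this] at hf
      omega
    have h3 : Nat.log 2 (s / 2) = f := by
      rw [Nat.log_div_base, hf]
      rfl
    have ih' := ih (s / 2) (by omega) (by omega) h3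
    set e := deg m N f (s / 2) with he
    have hN2 : 1 ≤ N ^ 2 := Nat.one_le_pow _ _ (by omega)
    -- one bound for both parities
    have h4 : deg m N (f + 1) s ≤ (4 * s ^ 2 * N ^ 2) * ((N.choose (s / 2)) ^ 2 * e) := by
      have h5 : (s + 2) * (s + 1) ≤ 4 * s ^ 2 := by nlinarith
      have h6 : s + 2 ≤ (4 * s ^ 2) * N ^ 2 := by
        have h7 : s + 2 ≤ 4 * s ^ 2 := by nlinarith
        calc s + 2 ≤ (4 * s ^ 2) * 1 := by omega
          _ ≤ (4 * s ^ 2) * N ^ 2 := Nat.mul_le_mul_left _ hN2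
      rw [deg]
      split_ifs
      · calc (s + 2) * (N.choose (s / 2)) ^ 2 * deg m N f (s / 2)
            = (s + 2) * ((N.choose (s / 2)) ^ 2 * e) := by rw [he]; ring
          _ ≤ (4 * s ^ 2 * N ^ 2) * ((N.choose (s / 2)) ^ 2 * e) := Nat.mul_le_mul_right _ h6
      · calc (s + 2) * N ^ 2 * ((s + 1) * (N.choose (s / 2)) ^ 2 * deg m N f (s / 2))
            = ((s + 2) * (s + 1)) * (N ^ 2 * ((N.choose (s / 2)) ^ 2 * e)) := by rw [he]; ring
          _ ≤ (4 * s ^ 2) * (N ^ 2 * ((N.choose (s / 2)) ^ 2 * e)) := Nat.mul_le_mul_right _ h5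
          _ = (4 * s ^ 2 * N ^ 2) * ((N.choose (s / 2)) ^ 2 * e) := by ring
    have hs0 : (0 : ℝ) < s := by
      have : 0 < s := by omega
      exact_mod_cast this
    have hsN : (s : ℝ) ≤ N := by exact_mod_cast hN
    have hσ : 1 ≤ s / 2 := by omega
    have hσ0 : (0 : ℝ) < ((s / 2 : ℕ) : ℝ) := by exact_mod_cast hσ
    have hσs : ((s / 2 : ℕ) : ℝ) ≤ (s : ℝ) / 2 := Nat.cast_div_le
    have hψσ : psi N ((s / 2 : ℕ) : ℝ) ≤ 2 / 3 * psi N s :=
      (psi_mono hσ0 hσs (by linarith)).trans (psi_half hs0 hsN)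
    have hc2 := choose_le_exp (N := N) (s := s / 2) hσ (by omega)
    have hc2' : ((N.choose (s / 2) : ℕ) : ℝ) ^ 2 ≤ Real.exp (4 / 3 * psi N s) := by
      calc ((N.choose (s / 2) : ℕ) : ℝ) ^ 2 ≤ (Real.exp (psi N ((s / 2 : ℕ) : ℝ))) ^ 2 :=
            pow_le_pow_left₀ (by positivity) hc2 2
        _ = Real.exp (2 * psi N ((s / 2 : ℕ) : ℝ)) := by
            rw [← Real.exp_nat_mul]; norm_num
        _ ≤ Real.exp (4 / 3 * psi N s) := Real.exp_le_exp.mpr (by linarith)
    have hm : (0 : ℝ) ≤ (m : ℝ) + 1 := by positivity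
    calc ((deg m N (f + 1) s : ℕ) : ℝ)
        ≤ (((4 * s ^ 2 * N ^ 2) * ((N.choose (s / 2)) ^ 2 * e) : ℕ) : ℝ) := by exact_mod_cast h4
      _ = (4 * (s : ℝ) ^ 2 * (N : ℝ) ^ 2) * (((N.choose (s / 2) : ℕ) : ℝ) ^ 2 * (e : ℝ)) := by
          push_cast; ring
      _ ≤ Real.exp (psi N s) * (Real.exp (4 / 3 * psi N s) *
            ((m + 1) * Real.exp (7 * psi N ((s / 2 : ℕ) : ℝ)))) := by
          apply mul_le_mul (four_pow_le h2 hN) _ (by positivity) (Real.exp_pos _).le
          exact mul_le_mul hc2' ih' (by positivity) (Real.exp_pos _).le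
      _ ≤ Real.exp (psi N s) * (Real.exp (4 / 3 * psi N s) *
            ((m + 1) * Real.exp (14 / 3 * psi N s))) := by
          have h10 : Real.exp (7 * psi N ((s / 2 : ℕ) : ℝ)) ≤ Real.exp (14 / 3 * psi N s) :=
            Real.exp_le_exp.mpr (by linarith)
          gcongr
      _ = (m + 1) * (Real.exp (psi N s) * Real.exp (4 / 3 * psi N s) *
            Real.exp (14 / 3 * psi N s)) := by ring
      _ = (m + 1) * Real.exp (7 * psi N s) := by
          rw [← Real.exp_add, ← Real.exp_add]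
          congr 2
          ring

/-- The number of exceptional values. -/
theorem exc_le (m N D : ℕ) (hD : 1 ≤ D) (hN : D ≤ N) :
    ((exc m N D : ℕ) : ℝ) + 1 ≤ (m + 1) * (8 * (N : ℝ) / D) ^ (8 * D) := by
  have hD0 : (0 : ℝ) < D := by exact_mod_cast hD
  have hDN : (D : ℝ) ≤ N := by exact_mod_cast hN
  have hN0 : (0 : ℝ) < N := lt_of_lt_of_le hD0 hDN
  have h1 := deg_le m N (Nat.log 2 D) D hD hN rfl
  have h2 : (8 * (N : ℝ) / D) ^ (8 * D) = Real.exp (7 * psi N D) * Real.exp (psi N D) := by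
    have h3 := exp_psi (N := (N : ℝ)) (x := (D : ℝ)) hD0 hN0 8 D rfl
    rw [← h3, ← Real.exp_add]
    congr 1
    push_cast
    ring
  have h4 : ((D : ℝ) + 1) ≤ Real.exp (psi N D) := by
    have h3 : Real.exp (psi N D) = (8 * (N : ℝ) / D) ^ D := by
      have := exp_psi (N := (N : ℝ)) (x := (D : ℝ)) hD0 hN0 1 D rfl
      simpa using this
    rw [h3]
    have h5 : (8 : ℝ) ≤ 8 * (N : ℝ) / D := by
      rw [le_div_iff₀ hD0]
      nlinarith
    have h6 : ((D : ℝ) + 1) ≤ 8 ^ D := by
      have h7 : D + 1 ≤ 8 ^ D := Nat.lt_pow_self (by norm_num)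
      exact_mod_cast h7
    exact h6.trans (pow_le_pow_left₀ (by norm_num) h5 D)
  have h8 : (1 : ℝ) ≤ (m + 1) * Real.exp (7 * psi N D) := by
    have h9 : (1 : ℝ) ≤ Real.exp (7 * psi N D) := by
      rw [Real.one_le_exp_iff]
      exact mul_nonneg (by norm_num) (psi_nonneg hD0 hDN)
    have h10 : (0 : ℝ) ≤ m := by positivity
    nlinarith
  have h11 : (0 : ℝ) < (m + 1) * Real.exp (7 * psi N D) := by positivity
  calc ((exc m N D : ℕ) : ℝ) + 1
      = (D : ℝ) * ((deg m N (Nat.log 2 D) D : ℕ) : ℝ) + 1 := by rw [exc]; push_cast; ring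
    _ ≤ (D : ℝ) * ((m + 1) * Real.exp (7 * psi N D)) + (m + 1) * Real.exp (7 * psi N D) := by
        have := mul_le_mul_of_nonneg_left h1 hD0.le
        linarith
    _ = ((m + 1) * Real.exp (7 * psi N D)) * ((D : ℝ) + 1) := by ring
    _ ≤ ((m + 1) * Real.exp (7 * psi N D)) * Real.exp (psi N D) :=
        mul_le_mul_of_nonneg_left h4 h11.le
    _ = (m + 1) * (8 * (N : ℝ) / D) ^ (8 * D) := by rw [h2]; ring

end Pool.Agent.Lib.MP_64d474_lc.BB91
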