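import Mathlib
import Pool.Agent.Lib.MP_64d474_lc.BB91.Main

/-!
The rank of a symbolic matrix is seen at all but few points of the explicit curve.
-/

namespace Pool.Agent.Lib.MP_64d474_lc.BB91

open Matrix Polynomial Module

variable {F : Type*} [Field F] {ι : Type*} [Fintype ι] {m : ℕ}

theorem exists_compression (A : Matrix ι ι F) (r : ℕ) (h : r ≤ A.rank) :
    ∃ (P : Matrix (Fin r) ι F) (Q : Matrix ι (Fin r) F), (P * A * Q).det ≠ 0 := by
  classical
  obtain ⟨w, hw⟩ := exists_linearIndependent_of_le_finrank (R := F)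
    (M := LinearMap.range A.mulVecLin) h
  have hx : ∀ i, ∃ x : ι → F, A *ᵥ x = (w i : ι → F) := by
    intro i
    obtain ⟨x, hx⟩ := (w i).2
    exact ⟨x, hx⟩
  choose x hx using hx
  let Q : Matrix ι (Fin r) F := Matrix.of fun a i => x i a
  have hAQ : ∀ y : Fin r → F, (A * Q) *ᵥ y = ∑ i, y i • (w i : ι → F) := by
    intro y
    rw [← Matrix.mulVec_mulVec]
    have : Q *ᵥ y = ∑ i, y i • x i := by
      funext a
      simp [Q, mulVec, dotProduct, mul_comm]
    rw [this, Matrix.mulVec_sum]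
    refine Finset.sum_congr rfl fun i _ => ?_
    rw [mulVec_smul, hx]
  have hinj : Function.Injective (A * Q).mulVecLin := by
    rw [injective_iff_map_eq_zero]
    intro y hy
    rw [Matrix.mulVecLin_apply, hAQ] at hy
    have hli : LinearIndependent F (fun i => (w i : ι → F)) :=
      hw.map' (LinearMap.range A.mulVecLin).subtype (Submodule.ker_subtype _)
    funext i
    exact Fintype.linearIndependent_iff.mp hli y hy i
  obtain ⟨g, hg⟩ := (A * Q).mulVecLin.exists_leftInverse_of_injective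
    (LinearMap.ker_eq_bot.mpr hinj)
  refine ⟨LinearMap.toMatrix' g, Q, ?_⟩
  have : LinearMap.toMatrix' g * A * Q = 1 := by
    rw [Matrix.mul_assoc]
    have h1 : LinearMap.toMatrix' g * (A * Q) =
        LinearMap.toMatrix' (g ∘ₗ (A * Q).mulVecLin) := by
      rw [LinearMap.toMatrix'_comp]
      congr 1
      exact (LinearMap.toMatrix'_toLin' (A * Q)).symm
    rw [h1, hg, LinearMap.toMatrix'_id]
  rw [this, Matrix.det_one]
  exact one_ne_zero

theorem le_rank_of_compression (A : Matrix ι ι F) (r : ℕ) (P : Matrix (Fin r) ι F)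
    (Q : Matrix ι (Fin r) F) (h : (P * A * Q).det ≠ 0) : r ≤ A.rank := by
  classical
  have h1 : (P * A * Q).rank = r := by
    rw [Matrix.rank_of_det_ne_zero h, Fintype.card_fin]
  calc r = (P * A * Q).rank := h1.symm
    _ ≤ (P * A).rank := Matrix.rank_mul_le_left _ _
    _ ≤ A.rank := Matrix.rank_mul_le_right _ _

theorem rank_poly [CharZero F] (r : ℕ) (hr : 1 ≤ r) (B : Fin m → Matrix ι ι F) (x₀ : Fin m → F)
    (h : r ≤ (∑ k, x₀ k • B k).rank) :
    ∃ p : F[X], p ≠ 0 ∧ p.natDegree ≤ exc m r r ∧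
      ∀ z : F, p.eval z ≠ 0 → r ≤ (∑ k, curve F m r r z k • B k).rank := by
  obtain ⟨P, Q, hPQ⟩ := exists_compression _ r h
  let B' : Fin m → Matrix (Fin r) (Fin r) F := fun k => P * B k * Q
  have hB' : ∀ x : Fin m → F, lin B' x = P * (∑ k, x k • B k) * Q := by
    intro x
    rw [lin_apply, Matrix.mul_sum, Matrix.sum_mul]
    refine Finset.sum_congr rfl fun k _ => ?_
    simp [B']
  have hg : (fun x => ((lin B' x).submatrix id id).det) ∈ minors (lin B') r :=
    minor_mem (lin B') r id id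
  obtain ⟨p, hp0, hpd, hpe⟩ := curve_hits B' r hr le_rfl _ hg (by
    intro h0
    have h1 := congrFun h0 x₀
    simp only [Matrix.submatrix_id_id, hB', Pi.zero_apply] at h1
    exact hPQ h1)
  refine ⟨p, hp0, hpd, fun z hz => ?_⟩
  rw [hpe] at hz
  simp only [Matrix.submatrix_id_id, hB'] at hz
  exact le_rank_of_compression _ r P Q hz

/-- All but at most `exc m r r` values of the parameter see the rank `r`. -/
theorem rank_curve [CharZero F] (r : ℕ) (B : Fin m → Matrix ι ι F) (x₀ : Fin m → F)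
    (h : r ≤ (∑ k, x₀ k • B k).rank) :
    ∃ E : Finset F, E.card ≤ exc m r r ∧
      ∀ z : F, z ∉ E → r ≤ (∑ k, curve F m r r z k • B k).rank := by
  classical
  by_cases hr : 1 ≤ r
  · obtain ⟨p, hp0, hpd, hpr⟩ := rank_poly r hr B x₀ h
    refine ⟨p.roots.toFinset, ?_, fun z hz => hpr z fun h0 => hz ?_⟩
    · exact (Multiset.toFinset_card_le _).trans ((card_roots' p).trans hpd)
    · rw [Multiset.mem_toFinset, mem_roots hp0]
      exact h0
  · exact ⟨∅, by simp, fun z _ => by omega⟩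

/-- Natural number tests. -/
theorem rank_nat [CharZero F] (r : ℕ) (B : Fin m → Matrix ι ι F) (x₀ : Fin m → F)
    (h : r ≤ (∑ k, x₀ k • B k).rank) :
    ∃ z : ℕ, z ≤ exc m r r ∧ r ≤ (∑ k, ((curve ℕ m r r z k : ℕ) : F) • B k).rank := by
  classical
  obtain ⟨E, hE, hz⟩ := rank_curve r B x₀ h
  have h1 : ∃ z ∈ Finset.range (exc m r r + 1), ((z : ℕ) : F) ∉ E := by
    by_contra hcon
    push Not at hcon
    have h2 := Finset.card_le_card_of_injOn (fun z : ℕ => (z : F)) hcon
      (fun x _ y _ hxy => Nat.cast_injective hxy)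
    rw [Finset.card_range] at h2
    omega
  obtain ⟨z, hzr, hzE⟩ := h1
  refine ⟨z, by have := Finset.mem_range.mp hzr; omega, ?_⟩
  have h3 := hz (z : F) hzE
  have h4 : (∑ k, ((curve ℕ m r r z k : ℕ) : F) • B k) = ∑ k, curve F m r r (z : F) k • B k :=
    Finset.sum_congr rfl fun k _ => by rw [curve_cast]
  rw [h4]
  exact h3

/-- The size in the case of the rank. -/
theorem exc_rank_le (m r : ℕ) : exc m r r + 1 ≤ (m + 1) * 2 ^ (24 * r) := by
  by_cases hr : 1 ≤ r
  · have h1 := exc_le m r r hr le_rfl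
    have hr0 : (0 : ℝ) < r := by exact_mod_cast hr
    have h2 : (8 * (r : ℝ) / r) = 8 := by field_simp
    rw [h2] at h1
    have h3 : ((exc m r r + 1 : ℕ) : ℝ) ≤ (((m + 1) * 8 ^ (8 * r) : ℕ) : ℝ) := by
      push_cast
      exact h1
    have h4 : exc m r r + 1 ≤ (m + 1) * 8 ^ (8 * r) := by exact_mod_cast h3
    have h5 : (8 : ℕ) ^ (8 * r) = 2 ^ (24 * r) := by
      rw [show (8 : ℕ) = 2 ^ 3 by norm_num, ← pow_mul]
      congr 1
      ring
    rw [h5] at h4
    exact h4
  · have h0 : r = 0 := by omega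
    subst h0
    simp [exc]

end Pool.Agent.Lib.MP_64d474_lc.BB91
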