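import Mathlib
import Pool.Agent.Lib.MP_64d474_lc.BB91.Gen

/-!
The explicit test sets: definitions and the hitting property.
-/

namespace Pool.Agent.Lib.MP_64d474_lc.BB91

open Matrix Polynomial

/-- The value at `v` of the curve of least degree through the points of `Q`, the `j`-th point
being its value at `j`, `j < Q.length`. -/
def curvePt {m : ℕ} (Q : List (Fin m → ℚ)) (v : ℚ) : Fin m → ℚ := fun k =>
  ∑ i ∈ Finset.range Q.length,
    (∏ j ∈ (Finset.range Q.length).erase i, (v - j) / ((i : ℚ) - j)) * Q.getD i 0 k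

/-- `d` points of the curve through `Q`, at `a, 2 a, 4 a, …`. -/
def condense {m : ℕ} (d a : ℕ) (Q : List (Fin m → ℚ)) : List (Fin m → ℚ) :=
  (List.range d).map fun (i : ℕ) => curvePt Q (2 ^ i * (a : ℚ))

/-- All `x + t y + u z`, `x, y ∈ P`, `z = 0` or `z ∈ E`, `t, u ≤ 2 s + 1`. -/
def spread {m : ℕ} (E P : List (Fin m → ℚ)) (s : ℕ) : List (Fin m → ℚ) :=
  P.flatMap fun x => P.flatMap fun y => (0 :: E).flatMap fun z =>
    (List.range (2 * s + 2)).flatMap fun (t : ℕ) => (List.range (2 * s + 2)).map fun (u : ℕ) =>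
      x + (t : ℚ) • y + (u : ℚ) • z

/-- The family of candidate lists for the minors of size `s` (`k = log 2 s`). -/
def fam {m : ℕ} (N : ℕ) (E : List (Fin m → ℚ)) : ℕ → ℕ → List (List (Fin m → ℚ))
  | 0, _ => [E]
  | k + 1, s => (fam N E k (s / 2)).flatMap fun P =>
      (List.range ((N.choose s) ^ 2 * (s * (spread E P (s / 2)).length) + 1)).map fun a =>
        condense ((N.choose s) ^ 2) a (spread E P (s / 2))

/-- The unit vectors. -/
def units (m : ℕ) : List (Fin m → ℚ) := (List.finRange m).map fun k => Pi.single k 1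

/-- The explicit test set for the `D × D` minors of `N × N` matrices. -/
def tests (m N D : ℕ) : List (Fin m → ℚ) :=
  (List.range (N ^ 2 * m + 1)).flatMap fun a =>
    (fam N (condense (N ^ 2) a (units m)) (Nat.log 2 D) D).flatten

variable {F : Type*} [Field F] {N : ℕ}

/-- Cast of a rational point. -/
def cst (F : Type*) [Field F] {m : ℕ} (p : Fin m → ℚ) : Fin m → F := fun k => (p k : F)

/-- The curve as polynomials over `F`. -/
noncomputable def curveP (F : Type*) [Field F] {m : ℕ} (Q : List (Fin m → ℚ)) (k : Fin m) : F[X] :=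
  ∑ i ∈ Finset.range Q.length,
    (∏ j ∈ (Finset.range Q.length).erase i, (C (((i : F) - j)⁻¹) * (X - C (j : F)))) *
      C ((Q.getD i 0 k : ℚ) : F)

theorem curveP_natDegree {m : ℕ} (Q : List (Fin m → ℚ)) (k : Fin m) :
    (curveP F Q k).natDegree ≤ Q.length := by
  refine natDegree_sum_le_of_forall_le _ _ fun i hi => ?_
  refine (natDegree_mul_C_le _ _).trans ?_
  refine (natDegree_prod_le _ _).trans ?_
  calc ∑ j ∈ (Finset.range Q.length).erase i, (C (((i : F) - j)⁻¹) * (X - C (j : F))).natDegree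
      ≤ ∑ _j ∈ (Finset.range Q.length).erase i, 1 := by
        refine Finset.sum_le_sum fun j _ => ?_
        refine (natDegree_C_mul_le _ _).trans ?_
        exact (natDegree_X_sub_C (j : F)).le
    _ ≤ Q.length := by
        rw [Finset.sum_const, smul_eq_mul, mul_one]
        exact (Finset.card_le_card (Finset.erase_subset _ _)).trans (Finset.card_range _).le

theorem curveP_eval [CharZero F] {m : ℕ} (Q : List (Fin m → ℚ)) (k : Fin m) (v : ℚ) :
    (curveP F Q k).eval (v : F) = (curvePt Q v k : F) := by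
  rw [curveP, curvePt, eval_finsetSum]
  push_cast
  refine Finset.sum_congr rfl fun i hi => ?_
  rw [eval_mul, eval_C, eval_prod]
  congr 1
  refine Finset.prod_congr rfl fun j hj => ?_
  rw [eval_mul, eval_C, eval_sub, eval_X, eval_C]
  rw [div_eq_mul_inv, mul_comm]

theorem curvePt_node {m : ℕ} (Q : List (Fin m → ℚ)) (i : ℕ) (hi : i < Q.length) :
    curvePt Q (i : ℚ) = Q.getD i 0 := by
  funext k
  rw [curvePt, Finset.sum_eq_single i]
  · rw [Finset.prod_eq_one, one_mul]
    intro j hj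
    have hne : (i : ℚ) - j ≠ 0 := by
      rw [sub_ne_zero]
      exact fun h => (Finset.mem_erase.mp hj).1 (Nat.cast_injective h).symm
    exact div_self hne
  · intro b _ hb
    rw [Finset.prod_eq_zero (i := i), zero_mul]
    · exact Finset.mem_erase.mpr ⟨Ne.symm hb, Finset.mem_range.mpr hi⟩
    · simp
  · intro h
    exact absurd (Finset.mem_range.mpr hi) h

/-- the set of cast points of a list -/
def pts (F : Type*) [Field F] {m : ℕ} (P : List (Fin m → ℚ)) : Set (Fin m → F) :=
  {z | ∃ p ∈ P, z = cst F p}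

theorem hits_mono {V : Type*} [AddCommGroup V] [Module F V] {P Q : Set V}
    {W : Submodule F (V → F)} (h : P ⊆ Q) (hP : Hits P W) : Hits Q W :=
  fun g hg hz => hP g hg fun p hp => hz p (h hp)

theorem condense_step [CharZero F] {m : ℕ} (B : Fin m → Matrix (Fin N) (Fin N) F) (s : ℕ)
    (Q : List (Fin m → ℚ)) (hQ : Hits (pts F Q) (minors (lin B) s)) :
    ∃ a : ℕ, a ≤ (N.choose s) ^ 2 * (s * Q.length) ∧
      Hits (pts F (condense ((N.choose s) ^ 2) a Q)) (minors (lin B) s) := by
  obtain ⟨a, ha, hh⟩ := condense_hits B s Q.length (curveP F Q) (curveP_natDegree Q) (pts F Q) hQ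
    (by
      rintro _ ⟨p, hp, rfl⟩
      obtain ⟨i, hi, rfl⟩ := List.mem_iff_getElem.mp hp
      refine ⟨((i : ℚ) : F), ?_⟩
      funext k
      rw [curveP_eval, curvePt_node Q i hi]
      simp [cst, List.getD_eq_getElem?_getD, hi])
  refine ⟨a, ha, hits_mono ?_ hh⟩
  rintro _ ⟨i, hi, rfl⟩
  refine ⟨curvePt Q (2 ^ i * (a : ℚ)), List.mem_map.mpr ⟨i, List.mem_range.mpr hi, rfl⟩, ?_⟩
  funext k
  have := curveP_eval (F := F) Q k (2 ^ i * (a : ℚ))
  push_cast at this
  rw [this]
  rfl

theorem spread_hits [CharZero F] {m : ℕ} (B : Fin m → Matrix (Fin N) (Fin N) F) (s : ℕ)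
    (E P : List (Fin m → ℚ)) (hE : Hits (pts F E) (minors (lin B) 1))
    (hP : Hits (pts F P) (minors (lin B) s)) (s' : ℕ) (hs' : s' = 2 * s ∨ s' = 2 * s + 1) :
    Hits (pts F (spread E P s)) (minors (lin B) s') := by
  have h1 := split_hits (lin B) s s (pts F P) (pts F P) hP hP
  rcases hs' with rfl | rfl
  · have h2 : s + s = 2 * s := by ring
    rw [h2] at h1
    refine hits_mono ?_ h1
    rintro _ ⟨_, ⟨x, hx, rfl⟩, _, ⟨y, hy, rfl⟩, t, ht, rfl⟩
    refine ⟨x + (t : ℚ) • y + ((0 : ℕ) : ℚ) • 0, ?_, ?_⟩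
    · simp only [spread, List.mem_flatMap, List.mem_map]
      refine ⟨x, hx, y, hy, 0, List.mem_cons_self, t, ?_, 0, ?_, rfl⟩
      · rw [List.mem_range]; omega
      · rw [List.mem_range]; omega
    · funext k
      simp [cst]
  · have h2 : s + s = 2 * s := by ring
    rw [h2] at h1
    have h3 := split_hits (lin B) (2 * s) 1 _ (pts F E) h1 hE
    refine hits_mono ?_ h3
    rintro _ ⟨_, ⟨_, ⟨x, hx, rfl⟩, _, ⟨y, hy, rfl⟩, t, ht, rfl⟩, _, ⟨z, hz, rfl⟩, u, hu, rfl⟩
    refine ⟨x + (t : ℚ) • y + (u : ℚ) • z, ?_, ?_⟩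
    · simp only [spread, List.mem_flatMap, List.mem_map]
      refine ⟨x, hx, y, hy, z, List.mem_cons_of_mem _ hz, t, ?_, u, ?_, rfl⟩
      · rw [List.mem_range]; omega
      · rw [List.mem_range]; omega
    · funext k
      simp [cst]

theorem fam_hits [CharZero F] {m : ℕ} (B : Fin m → Matrix (Fin N) (Fin N) F)
    (E : List (Fin m → ℚ)) (hE : Hits (pts F E) (minors (lin B) 1)) :
    ∀ (k s : ℕ), 1 ≤ s → Nat.log 2 s = k →
      ∃ P ∈ fam N E k s, Hits (pts F P) (minors (lin B) s) := by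
  intro k
  induction k with
  | zero =>
    intro s hs hk
    have h1 : s = 1 := by
      rcases Nat.log_eq_zero_iff.mp hk with h | h <;> omega
    subst h1
    exact ⟨E, by simp [fam], hE⟩
  | succ k ih =>
    intro s hs hk
    have h2 : 2 ≤ s := by
      by_contra h
      have : s < 2 := by omega
      rw [Nat.log_of_lt this] at hk
      omega
    have h3 : Nat.log 2 (s / 2) = k := by
      rw [Nat.log_div_base, hk]
      rfl
    obtain ⟨P, hP, hPh⟩ := ih (s / 2) (by omega) h3
    have h4 := spread_hits B (s / 2) E P hE hPh s (by omega)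
    obtain ⟨a, ha, hh⟩ := condense_step B s (spread E P (s / 2)) h4
    refine ⟨_, ?_, hh⟩
    rw [fam, List.mem_flatMap]
    exact ⟨P, hP, List.mem_map.mpr ⟨a, List.mem_range.mpr (by omega), rfl⟩⟩

theorem units_hits {m : ℕ} (B : Fin m → Matrix (Fin N) (Fin N) F) :
    Hits (pts F (units m)) (minors (lin B) 1) := by
  intro g hg hz
  -- g is additive and homogeneous
  have hlin : ∃ φ : (Fin m → F) →ₗ[F] F, ∀ x, φ x = g x := by
    refine Submodule.span_induction (p := fun g _ => ∃ φ : (Fin m → F) →ₗ[F] F, ∀ x, φ x = g x)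
      ?_ ?_ ?_ ?_ hg
    · rintro _ ⟨⟨R, C⟩, rfl⟩
      refine ⟨{ toFun := fun x => ((lin B x).submatrix R C).det, map_add' := ?_, map_smul' := ?_ },
        fun x => rfl⟩
      · intro x y
        simp
      · intro c x
        simp
    · exact ⟨0, fun x => rfl⟩
    · rintro g g' _ _ ⟨φ, h⟩ ⟨φ', h'⟩
      exact ⟨φ + φ', fun x => by simp [h, h']⟩
    · rintro c g _ ⟨φ, h⟩
      exact ⟨c • φ, fun x => by simp [h]⟩
  obtain ⟨φ, hφ⟩ := hlin
  have hzero : ∀ k : Fin m, φ (Pi.single k 1) = 0 := by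
    intro k
    rw [hφ]
    apply hz
    refine ⟨Pi.single k 1, List.mem_map.mpr ⟨k, List.mem_finRange k, rfl⟩, ?_⟩
    funext l
    by_cases h : l = k
    · subst h
      simp [cst]
    · simp [cst, Pi.single_eq_of_ne h]
  have hφ0 : φ = 0 := by
    apply LinearMap.pi_ext'
    intro k
    ext
    simpa using hzero k
  funext x
  rw [← hφ, hφ0]
  rfl

/-- Every nonzero combination of `D × D` minors is nonzero at some test point. -/
theorem tests_hits [CharZero F] {m : ℕ} (B : Fin m → Matrix (Fin N) (Fin N) F) (D : ℕ)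
    (hD : 1 ≤ D) (g : (Fin m → F) → F) (hg : g ∈ minors (lin B) D) (hne : g ≠ 0) :
    ∃ h ∈ tests m N D, g (fun k => (h k : F)) ≠ 0 := by
  obtain ⟨a, ha, hE⟩ := condense_step B 1 (units m) (units_hits B)
  have hlen : (units m).length = m := by simp [units]
  rw [hlen, Nat.choose_one_right, one_mul] at ha
  rw [Nat.choose_one_right] at hE
  obtain ⟨P, hP, hPh⟩ := fam_hits B _ hE (Nat.log 2 D) D hD rfl
  by_contra hcon
  push Not at hcon
  apply hne
  apply hPh g hg
  rintro _ ⟨p, hp, rfl⟩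
  apply hcon p
  rw [tests, List.mem_flatMap]
  exact ⟨a, List.mem_range.mpr (by omega), List.mem_flatten.mpr ⟨P, hP, hp⟩⟩

end Pool.Agent.Lib.MP_64d474_lc.BB91
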