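import Mathlib
import Pool.Agent.Lib.MP_64d474_lc.BB91.Rec
import Pool.Agent.Lib.MP_64d474_lc.BB91.Psi

/-!
The number of test points: `|tests m N D| ≤ (m + 1) (8 N / D) ^ (24 D)`.
-/

namespace Pool.Agent.Lib.MP_64d474_lc.BB91

open Real

theorem length_flatMap_le {α β : Type*} (l : List α) (f : α → List β) (c : ℕ)
    (h : ∀ x ∈ l, (f x).length ≤ c) : (l.flatMap f).length ≤ l.length * c := by
  induction l with
  | nil => simp
  | cons a l ih =>
    rw [List.flatMap_cons, List.length_append, List.length_cons]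
    have h1 := h a List.mem_cons_self
    have h2 := ih fun x hx => h x (List.mem_cons_of_mem _ hx)
    calc (f a).length + (l.flatMap f).length ≤ c + l.length * c := Nat.add_le_add h1 h2
      _ = (l.length + 1) * c := by ring

theorem length_condense {m : ℕ} (d a : ℕ) (Q : List (Fin m → ℚ)) :
    (condense d a Q).length = d := by
  simp [condense]

theorem length_spread {m : ℕ} (E P : List (Fin m → ℚ)) (s : ℕ) :
    (spread E P s).length ≤ P.length * (P.length * ((E.length + 1) * ((2 * s + 2) * (2 * s + 2)))) := by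
  unfold spread
  refine length_flatMap_le _ _ _ fun x _ => length_flatMap_le _ _ _ fun y _ => ?_
  refine (length_flatMap_le _ _ ((2 * s + 2) * (2 * s + 2)) fun z _ => ?_).trans ?_
  · refine (length_flatMap_le _ _ (2 * s + 2) fun t _ => ?_).trans ?_
    · simp
    · simp
  · simp

theorem poly_le {N s : ℕ} (hs : 2 ≤ s) (hN : s ≤ N) :
    (16 : ℝ) * (s : ℝ) ^ 3 * (N : ℝ) ^ 2 ≤ Real.exp (2 * psi N s) := by
  have hs0 : (0 : ℝ) < s := by
    have : 0 < s := by omega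
    exact_mod_cast this
  have hN0 : (0 : ℝ) < N := by
    have : 0 < N := by omega
    exact_mod_cast this
  have h3 : Real.exp (2 * psi N s) = (8 * (N : ℝ) / s) ^ (2 * s) := by
    have := exp_psi (N := (N : ℝ)) (x := (s : ℝ)) hs0 hN0 2 s rfl
    simpa using this
  rw [h3]
  have h4 : (16 : ℝ) * (s : ℝ) ^ 5 ≤ 8 ^ (2 * s) := by
    have h5 : s ≤ 2 ^ (s - 1) := by
      obtain ⟨t, rfl⟩ : ∃ t, s = t + 1 := ⟨s - 1, by omega⟩
      have := Nat.lt_two_pow_self (n := t)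
      simpa using this
    have h6 : 16 * s ^ 5 ≤ 8 ^ (2 * s) := by
      have h7 : s ^ 5 ≤ (2 ^ (s - 1)) ^ 5 := Nat.pow_le_pow_left h5 5
      calc 16 * s ^ 5 ≤ 16 * (2 ^ (s - 1)) ^ 5 := Nat.mul_le_mul_left _ h7
        _ = 2 ^ (4 + (s - 1) * 5) := by
            rw [pow_add, pow_mul]
            norm_num
        _ ≤ 2 ^ (3 * (2 * s)) := Nat.pow_le_pow_right (by norm_num) (by omega)
        _ = 8 ^ (2 * s) := by
            rw [pow_mul]
            norm_num
    exact_mod_cast h6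
  have h8 : (1 : ℝ) ≤ (N : ℝ) / s := by
    rw [le_div_iff₀ hs0, one_mul]
    exact_mod_cast hN
  have h9 : ((N : ℝ) / s) ^ 2 ≤ ((N : ℝ) / s) ^ (2 * s) := pow_le_pow_right₀ h8 (by omega)
  calc (16 : ℝ) * (s : ℝ) ^ 3 * (N : ℝ) ^ 2 = (16 * (s : ℝ) ^ 5) * ((N : ℝ) / s) ^ 2 := by
        field_simp
    _ ≤ 8 ^ (2 * s) * ((N : ℝ) / s) ^ (2 * s) := by
        apply mul_le_mul h4 h9 (by positivity) (by positivity)
    _ = (8 * (N : ℝ) / s) ^ (2 * s) := by
        rw [← mul_pow]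
        congr 1
        ring

/-- the number of candidates in one step, with its `+ 1` -/
theorem step_le {N s L : ℕ} (hs : 2 ≤ s) (hN : s ≤ N)
    (hL : L ≤ (N.choose (s / 2)) ^ 2 * ((N.choose (s / 2)) ^ 2 *
      ((N ^ 2 + 1) * ((2 * (s / 2) + 2) * (2 * (s / 2) + 2))))) :
    (((N.choose s) ^ 2 * (s * L) + 1 : ℕ) : ℝ) ≤ Real.exp (20 / 3 * psi N s) := by
  have hs0 : (0 : ℝ) < s := by
    have : 0 < s := by omega
    exact_mod_cast this
  have hsN : (s : ℝ) ≤ N := by exact_mod_cast hN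
  have hN0 : (0 : ℝ) < N := lt_of_lt_of_le hs0 hsN
  have hσ : 1 ≤ s / 2 := by omega
  have hσN : s / 2 ≤ N := by omega
  have hσ0 : (0 : ℝ) < ((s / 2 : ℕ) : ℝ) := by exact_mod_cast hσ
  have hσs : ((s / 2 : ℕ) : ℝ) ≤ (s : ℝ) / 2 := Nat.cast_div_le
  have hψσ : psi N ((s / 2 : ℕ) : ℝ) ≤ 2 / 3 * psi N s :=
    (psi_mono hσ0 hσs (by linarith)).trans (psi_half hs0 hsN)
  have hc1 := choose_le_exp (N := N) (s := s) (by omega) hN
  have hc2 := choose_le_exp (N := N) (s := s / 2) hσ hσN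
  have hc2' : ((N.choose (s / 2) : ℕ) : ℝ) ^ 4 ≤ Real.exp (8 / 3 * psi N s) := by
    calc ((N.choose (s / 2) : ℕ) : ℝ) ^ 4 ≤ (Real.exp (psi N ((s / 2 : ℕ) : ℝ))) ^ 4 :=
          pow_le_pow_left₀ (by positivity) hc2 4
      _ = Real.exp (4 * psi N ((s / 2 : ℕ) : ℝ)) := by
          rw [← Real.exp_nat_mul]; norm_num
      _ ≤ Real.exp (8 / 3 * psi N s) := Real.exp_le_exp.mpr (by linarith)
  have hc1' : ((N.choose s : ℕ) : ℝ) ^ 2 ≤ Real.exp (2 * psi N s) := by
    calc ((N.choose s : ℕ) : ℝ) ^ 2 ≤ (Real.exp (psi N s)) ^ 2 :=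
          pow_le_pow_left₀ (by positivity) hc1 2
      _ = Real.exp (2 * psi N s) := by
          rw [← Real.exp_nat_mul]; norm_num
  -- the number is at most 16 C^2 C'^4 s^3 N^2
  have hnat : (N.choose s) ^ 2 * (s * L) + 1 ≤
      (N.choose s) ^ 2 * ((N.choose (s / 2)) ^ 4 * (16 * s ^ 3 * N ^ 2)) := by
    have hp1 : 1 ≤ (N.choose s) ^ 2 := Nat.one_le_pow _ _ (Nat.choose_pos hN)
    have hp2 : 1 ≤ (N.choose (s / 2)) ^ 4 := Nat.one_le_pow _ _ (Nat.choose_pos hσN)
    have hq : (2 * (s / 2) + 2) * (2 * (s / 2) + 2) ≤ 4 * s ^ 2 := by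
      have h1 : 2 * (s / 2) + 2 ≤ 2 * s := by omega
      calc (2 * (s / 2) + 2) * (2 * (s / 2) + 2) ≤ (2 * s) * (2 * s) := Nat.mul_le_mul h1 h1
        _ = 4 * s ^ 2 := by ring
    have hN1 : N ^ 2 + 1 ≤ 2 * N ^ 2 := by
      have : 1 ≤ N ^ 2 := Nat.one_le_pow _ _ (by omega)
      omega
    have hL2 : L ≤ (N.choose (s / 2)) ^ 4 * (8 * s ^ 2 * N ^ 2) := by
      refine hL.trans ?_
      calc (N.choose (s / 2)) ^ 2 * ((N.choose (s / 2)) ^ 2 *
            ((N ^ 2 + 1) * ((2 * (s / 2) + 2) * (2 * (s / 2) + 2))))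
          ≤ (N.choose (s / 2)) ^ 2 * ((N.choose (s / 2)) ^ 2 * ((2 * N ^ 2) * (4 * s ^ 2))) :=
            Nat.mul_le_mul_left _ (Nat.mul_le_mul_left _ (Nat.mul_le_mul hN1 hq))
        _ = (N.choose (s / 2)) ^ 4 * (8 * s ^ 2 * N ^ 2) := by ring
    have h3 : (N.choose s) ^ 2 * (s * L) ≤
        (N.choose s) ^ 2 * ((N.choose (s / 2)) ^ 4 * (8 * s ^ 3 * N ^ 2)) := by
      refine Nat.mul_le_mul_left _ ?_
      calc s * L ≤ s * ((N.choose (s / 2)) ^ 4 * (8 * s ^ 2 * N ^ 2)) := Nat.mul_le_mul_left _ hL2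
        _ = (N.choose (s / 2)) ^ 4 * (8 * s ^ 3 * N ^ 2) := by ring
    have h4 : 1 ≤ (N.choose s) ^ 2 * ((N.choose (s / 2)) ^ 4 * (8 * s ^ 3 * N ^ 2)) := by
      have h5 : 1 ≤ 8 * s ^ 3 * N ^ 2 := by
        have h6 : 1 ≤ s ^ 3 := Nat.one_le_pow _ _ (by omega)
        have h7 : 1 ≤ N ^ 2 := Nat.one_le_pow _ _ (by omega)
        calc 1 = 1 * 1 * 1 := rfl
          _ ≤ 8 * s ^ 3 * N ^ 2 := Nat.mul_le_mul (Nat.mul_le_mul (by norm_num) h6) h7
      calc 1 = 1 * (1 * 1) := rfl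
        _ ≤ _ := Nat.mul_le_mul hp1 (Nat.mul_le_mul hp2 h5)
    calc (N.choose s) ^ 2 * (s * L) + 1
        ≤ (N.choose s) ^ 2 * ((N.choose (s / 2)) ^ 4 * (8 * s ^ 3 * N ^ 2)) +
          (N.choose s) ^ 2 * ((N.choose (s / 2)) ^ 4 * (8 * s ^ 3 * N ^ 2)) := Nat.add_le_add h3 h4
      _ = (N.choose s) ^ 2 * ((N.choose (s / 2)) ^ 4 * (16 * s ^ 3 * N ^ 2)) := by ring
  calc (((N.choose s) ^ 2 * (s * L) + 1 : ℕ) : ℝ)
      ≤ (((N.choose s) ^ 2 * ((N.choose (s / 2)) ^ 4 * (16 * s ^ 3 * N ^ 2)) : ℕ) : ℝ) := by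
        exact_mod_cast hnat
    _ = ((N.choose s : ℕ) : ℝ) ^ 2 * (((N.choose (s / 2) : ℕ) : ℝ) ^ 4 *
          (16 * (s : ℝ) ^ 3 * (N : ℝ) ^ 2)) := by push_cast; ring
    _ ≤ Real.exp (2 * psi N s) * (Real.exp (8 / 3 * psi N s) * Real.exp (2 * psi N s)) := by
        apply mul_le_mul hc1' _ (by positivity) (Real.exp_pos _).le
        exact mul_le_mul hc2' (poly_le hs hN) (by positivity) (Real.exp_pos _).le
    _ = Real.exp (20 / 3 * psi N s) := by
        rw [← Real.exp_add, ← Real.exp_add]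
        congr 1
        ring

theorem fam_length {m : ℕ} (N : ℕ) (E : List (Fin m → ℚ)) (hE : E.length = N ^ 2) :
    ∀ (k s : ℕ), 1 ≤ s → s ≤ N → Nat.log 2 s = k →
      (∀ P ∈ fam N E k s, P.length = (N.choose s) ^ 2) ∧
      ((fam N E k s).length : ℝ) ≤ Real.exp (20 * psi N s) := by
  intro k
  induction k with
  | zero =>
    intro s hs hN hk
    have h1 : s = 1 := by
      rcases Nat.log_eq_zero_iff.mp hk with h | h <;> omega
    subst h1
    refine ⟨fun P hP => ?_, ?_⟩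
    · rw [fam, List.mem_singleton] at hP
      rw [hP, hE, Nat.choose_one_right]
    · simp only [fam, List.length_singleton, Nat.cast_one]
      rw [Real.one_le_exp_iff]
      have : (1 : ℝ) ≤ N := by exact_mod_cast hN
      exact mul_nonneg (by norm_num) (psi_nonneg one_pos this)
  | succ k ih =>
    intro s hs hN hk
    have h2 : 2 ≤ s := by
      by_contra h
      have : s < 2 := by omega
      rw [Nat.log_of_lt this] at hk
      omega
    have h3 : Nat.log 2 (s / 2) = k := by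
      rw [Nat.log_div_base, hk]
      rfl
    obtain ⟨ih1, ih2⟩ := ih (s / 2) (by omega) (by omega) h3
    refine ⟨fun P hP => ?_, ?_⟩
    · rw [fam, List.mem_flatMap] at hP
      obtain ⟨P', _, hP'⟩ := hP
      obtain ⟨a, _, rfl⟩ := List.mem_map.mp hP'
      exact length_condense _ _ _
    · set L : ℕ := (N.choose (s / 2)) ^ 2 * ((N.choose (s / 2)) ^ 2 *
        ((N ^ 2 + 1) * ((2 * (s / 2) + 2) * (2 * (s / 2) + 2)))) with hLdef
      have h4 : (fam N E (k + 1) s).length ≤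
          (fam N E k (s / 2)).length * ((N.choose s) ^ 2 * (s * L) + 1) := by
        rw [fam]
        refine length_flatMap_le _ _ _ fun P hP => ?_
        rw [List.length_map, List.length_range]
        have h5 := length_spread E P (s / 2)
        rw [ih1 P hP, hE] at h5
        have h6 : (N.choose s) ^ 2 * (s * (spread E P (s / 2)).length) ≤
            (N.choose s) ^ 2 * (s * L) :=
          Nat.mul_le_mul_left _ (Nat.mul_le_mul_left _ h5)
        omega
      have hs0 : (0 : ℝ) < s := by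
        have : 0 < s := by omega
        exact_mod_cast this
      have hsN : (s : ℝ) ≤ N := by exact_mod_cast hN
      have hσ0 : (0 : ℝ) < ((s / 2 : ℕ) : ℝ) := by
        have : 1 ≤ s / 2 := by omega
        exact_mod_cast this
      have hσs : ((s / 2 : ℕ) : ℝ) ≤ (s : ℝ) / 2 := Nat.cast_div_le
      have hψσ : psi N ((s / 2 : ℕ) : ℝ) ≤ 2 / 3 * psi N s :=
        (psi_mono hσ0 hσs (by linarith)).trans (psi_half hs0 hsN)
      calc ((fam N E (k + 1) s).length : ℝ)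
          ≤ (((fam N E k (s / 2)).length * ((N.choose s) ^ 2 * (s * L) + 1) : ℕ) : ℝ) := by
            exact_mod_cast h4
        _ = ((fam N E k (s / 2)).length : ℝ) * (((N.choose s) ^ 2 * (s * L) + 1 : ℕ) : ℝ) := by
            push_cast; ring
        _ ≤ Real.exp (20 * psi N ((s / 2 : ℕ) : ℝ)) * Real.exp (20 / 3 * psi N s) :=
            mul_le_mul ih2 (step_le h2 hN le_rfl) (by positivity) (Real.exp_pos _).le
        _ = Real.exp (20 * psi N ((s / 2 : ℕ) : ℝ) + 20 / 3 * psi N s) := (Real.exp_add _ _).symm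
        _ ≤ Real.exp (20 * psi N s) := Real.exp_le_exp.mpr (by linarith)

theorem sq_le_exp {N D : ℕ} (hD : 1 ≤ D) (hN : D ≤ N) :
    ((N : ℝ)) ^ 2 ≤ Real.exp (2 * psi N D) := by
  have hD0 : (0 : ℝ) < D := by exact_mod_cast hD
  have hDN : (D : ℝ) ≤ N := by exact_mod_cast hN
  have hN0 : (0 : ℝ) < N := lt_of_lt_of_le hD0 hDN
  have h3 : Real.exp (2 * psi N D) = (8 * (N : ℝ) / D) ^ (2 * D) := by
    have := exp_psi (N := (N : ℝ)) (x := (D : ℝ)) hD0 hN0 2 D rfl
    simpa using this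
  rw [h3]
  have h8 : (1 : ℝ) ≤ (N : ℝ) / D := by
    rw [le_div_iff₀ hD0, one_mul]
    exact hDN
  have h9 : ((N : ℝ) / D) ^ 2 ≤ ((N : ℝ) / D) ^ (2 * D) := pow_le_pow_right₀ h8 (by omega)
  have h4 : ((D : ℝ)) ^ 2 ≤ 8 ^ (2 * D) := by
    have h5 : D ≤ 8 ^ D := (Nat.lt_pow_self (by norm_num)).le
    have h6 : D ^ 2 ≤ 8 ^ (2 * D) := by
      calc D ^ 2 ≤ (8 ^ D) ^ 2 := Nat.pow_le_pow_left h5 2
        _ = 8 ^ (2 * D) := by rw [← pow_mul]; congr 1; ring
    exact_mod_cast h6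
  calc ((N : ℝ)) ^ 2 = (D : ℝ) ^ 2 * ((N : ℝ) / D) ^ 2 := by field_simp
    _ ≤ 8 ^ (2 * D) * ((N : ℝ) / D) ^ (2 * D) := by
        apply mul_le_mul h4 h9 (by positivity) (by positivity)
    _ = (8 * (N : ℝ) / D) ^ (2 * D) := by
        rw [← mul_pow]
        congr 1
        ring

/-- The number of tests. -/
theorem tests_length (m N D : ℕ) (hD : 1 ≤ D) (hN : D ≤ N) :
    ((tests m N D).length : ℝ) ≤ (m + 1) * (8 * (N : ℝ) / D) ^ (24 * D) := by
  have hD0 : (0 : ℝ) < D := by exact_mod_cast hD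
  have hDN : (D : ℝ) ≤ N := by exact_mod_cast hN
  have hN0 : (0 : ℝ) < N := lt_of_lt_of_le hD0 hDN
  have hψ : 0 ≤ psi N D := psi_nonneg hD0 hDN
  -- a bound for one value of a
  obtain ⟨K, hK⟩ : ∃ K : ℕ, K = ⌊Real.exp (20 * psi N D)⌋₊ := ⟨_, rfl⟩
  have hone : ∀ a : ℕ, (fam N (condense (N ^ 2) a (units m)) (Nat.log 2 D) D).flatten.length ≤
      K * (N.choose D) ^ 2 := by
    intro a
    obtain ⟨h1, h2⟩ := fam_length N (condense (N ^ 2) a (units m)) (length_condense _ _ _)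
      (Nat.log 2 D) D hD hN rfl
    have h3 : (fam N (condense (N ^ 2) a (units m)) (Nat.log 2 D) D).length ≤ K := by
      rw [hK]
      exact Nat.le_floor h2
    have h4 := length_flatMap_le (fam N (condense (N ^ 2) a (units m)) (Nat.log 2 D) D) id
      ((N.choose D) ^ 2) (fun P hP => (h1 P hP).le)
    rw [List.flatMap_id] at h4
    exact h4.trans (Nat.mul_le_mul_right _ h3)
  have htot : (tests m N D).length ≤ (N ^ 2 * m + 1) * (K * (N.choose D) ^ 2) := by
    have := length_flatMap_le (List.range (N ^ 2 * m + 1))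
      (fun a => (fam N (condense (N ^ 2) a (units m)) (Nat.log 2 D) D).flatten) _
      (fun a _ => hone a)
    rw [List.length_range] at this
    exact this
  have hKle : (K : ℝ) ≤ Real.exp (20 * psi N D) := by
    rw [hK]
    exact Nat.floor_le (Real.exp_pos _).le
  have hc : ((N.choose D : ℕ) : ℝ) ^ 2 ≤ Real.exp (2 * psi N D) := by
    calc ((N.choose D : ℕ) : ℝ) ^ 2 ≤ (Real.exp (psi N D)) ^ 2 :=
          pow_le_pow_left₀ (by positivity) (choose_le_exp hD hN) 2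
      _ = Real.exp (2 * psi N D) := by
          rw [← Real.exp_nat_mul]; norm_num
  have hm : ((N : ℝ) ^ 2 * m + 1) ≤ (m + 1) * Real.exp (2 * psi N D) := by
    have h1 := sq_le_exp hD hN
    have h2 : (1 : ℝ) ≤ Real.exp (2 * psi N D) := by
      rw [Real.one_le_exp_iff]
      positivity
    have h3 : (0 : ℝ) ≤ m := by positivity
    nlinarith
  calc ((tests m N D).length : ℝ) ≤ (((N ^ 2 * m + 1) * (K * (N.choose D) ^ 2) : ℕ) : ℝ) := by
        exact_mod_cast htot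
    _ = ((N : ℝ) ^ 2 * m + 1) * ((K : ℝ) * ((N.choose D : ℕ) : ℝ) ^ 2) := by push_cast; ring
    _ ≤ ((m + 1) * Real.exp (2 * psi N D)) * (Real.exp (20 * psi N D) * Real.exp (2 * psi N D)) := by
        apply mul_le_mul hm _ (by positivity) (by positivity)
        exact mul_le_mul hKle hc (by positivity) (Real.exp_pos _).le
    _ = (m + 1) * Real.exp (24 * psi N D) := by
        rw [mul_assoc, ← Real.exp_add, ← Real.exp_add]
        congr 2
        ring
    _ = (m + 1) * (8 * (N : ℝ) / D) ^ (24 * D) := by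
        congr 1
        have := exp_psi (N := (N : ℝ)) (x := (D : ℝ)) hD0 hN0 24 D rfl
        simpa using this

end Pool.Agent.Lib.MP_64d474_lc.BB91
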